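import Pool.Agent.Helper64_CUB.Fld

/-!
# Reduction of a linear subspace with a section of its quadric bundle
-/

set_option autoImplicit false
set_option linter.unusedSectionVars false

namespace Pool.Agent.CUB.H64

open MvPolynomial

/-- a form of degree `n` at a multiple of a vector -/
theorem eval_smul_hom {A σ : Type} [CommRing A] {f : MvPolynomial σ A} {n : ℕ}
    (hf : f.IsHomogeneous n) (s : A) (x : σ → A) :
    eval (fun i => s * x i) f = s ^ n * eval x f := by
  rw [eval_eq, eval_eq, Finset.mul_sum]
  apply Finset.sum_congr rfl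
  intro d hd
  have h1 := hf (mem_support_iff.1 hd)
  have h2 : ∏ i ∈ d.support, (s * x i) ^ d i = s ^ n * ∏ i ∈ d.support, x i ^ d i := by
    simp only [mul_pow, Finset.prod_mul_distrib]
    rw [Finset.prod_pow_eq_pow_sum]
    congr 2
    rw [← h1, Finsupp.weight_apply, Finsupp.sum]
    apply Finset.sum_congr rfl
    intro i _
    simp
  rw [h2]
  ring

/-- homogeneity of the divided difference -/
theorem DD_smul {A σ : Type} [CommRing A] [IsDomain A] {f : MvPolynomial σ A}
    (hf : f.IsHomogeneous 3) (s : A) (hs : s ≠ 0) (U W : σ → A) (c : A) :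
    DD f (fun i => s * U i) (s * c) W = s ^ 2 * DD f U c W := by
  have key : DD (map Polynomial.C f) (fun i => Polynomial.C s * Polynomial.C (U i))
        (Polynomial.C s * Polynomial.X) (fun i => Polynomial.C (W i)) =
      Polynomial.C s ^ 2 * DD (map Polynomial.C f) (fun i => Polynomial.C (U i)) Polynomial.X
        (fun i => Polynomial.C (W i)) := by
    have h0 : Polynomial.C s * Polynomial.X ≠ 0 :=
      mul_ne_zero (fun h => hs (Polynomial.C_injective (h.trans (map_zero _).symm)))
        Polynomial.X_ne_zero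
    apply mul_left_cancel₀ h0
    rw [mul_DD]
    have h1 : Polynomial.C s * Polynomial.X * (Polynomial.C s ^ 2 *
        DD (map Polynomial.C f) (fun i => Polynomial.C (U i)) Polynomial.X
          (fun i => Polynomial.C (W i))) = Polynomial.C s ^ 3 * (Polynomial.X *
        DD (map Polynomial.C f) (fun i => Polynomial.C (U i)) Polynomial.X
          (fun i => Polynomial.C (W i))) := by ring
    rw [h1, mul_DD, mul_sub,
      ← eval_smul_hom (hf.map Polynomial.C) (Polynomial.C s)
        (fun i => Polynomial.C (U i) + Polynomial.X * Polynomial.C (W i)),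
      ← eval_smul_hom (hf.map Polynomial.C) (Polynomial.C s) (fun i => Polynomial.C (U i))]
    congr 3
    funext i
    ring
  have h1 := congrArg (Polynomial.evalRingHom c) key
  have h2 : map (Polynomial.evalRingHom c) (map Polynomial.C f) = f := by
    rw [map_map]
    have h3 : (Polynomial.evalRingHom c).comp Polynomial.C = RingHom.id A := by
      ext x
      simp
    rw [h3, map_id]
  rw [map_mul, map_pow, map_DD, map_DD, h2] at h1
  simpa using h1

section prim

variable {E : Type} [Field E] (V : ValuationSubring E)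

theorem max_val {κ : Type} (S : Finset κ) (a : κ → E) (h : ∃ k ∈ S, a k ≠ 0) :
    ∃ k0 ∈ S, a k0 ≠ 0 ∧ ∀ k ∈ S, (a k0)⁻¹ * a k ∈ V := by
  obtain ⟨k1, hk1, hk1'⟩ := h
  obtain ⟨k0, h0, hmax⟩ := S.exists_max_image (fun k => V.valuation (a k)) ⟨k1, hk1⟩
  have hne : a k0 ≠ 0 := by
    intro h
    have h1 := hmax k1 hk1
    rw [h, map_zero] at h1
    apply hk1'
    exact (Valuation.zero_iff _).1 (le_antisymm h1 zero_le)
  refine ⟨k0, h0, hne, ?_⟩
  intro k hk
  obtain ⟨b, hb⟩ := (V.valuation_le_iff _ _).1 (hmax k hk)
  rw [← hb]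
  have : (a k0)⁻¹ * ((b : E) * a k0) = b := by field_simp
  rw [this]
  exact b.2

/-- a finite family of polynomials may be scaled such that its coefficients are integral and one
of them is `1` -/
theorem prim {ι σ : Type} [Fintype ι] (g : ι → MvPolynomial σ E) (hg : g ≠ 0) :
    ∃ s : E, s ≠ 0 ∧ ∃ g' : ι → MvPolynomial σ V, (∀ i, map V.subtype (g' i) = C s * g i) ∧
      ∃ i d, coeff d (g' i) = 1 := by
  classical
  obtain ⟨i1, hi1⟩ := Function.ne_iff.1 hg
  obtain ⟨d1, hd1⟩ := ne_zero_iff.1 hi1
  set S : Finset (ι × (σ →₀ ℕ)) :=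
    Finset.univ.biUnion (fun i => (g i).support.image (Prod.mk i)) with hS
  have hmem : ∀ i d, (i, d) ∈ S ↔ coeff d (g i) ≠ 0 := by
    intro i d
    rw [hS, Finset.mem_biUnion]
    constructor
    · rintro ⟨j, _, hj⟩
      rw [Finset.mem_image] at hj
      obtain ⟨e, he, he'⟩ := hj
      rw [Prod.mk.injEq] at he'
      rw [← he'.1, ← he'.2]
      exact mem_support_iff.1 he
    · intro h
      exact ⟨i, Finset.mem_univ _, Finset.mem_image_of_mem _ (mem_support_iff.2 h)⟩
  obtain ⟨⟨i0, d0⟩, h0, hne, hmax⟩ := max_val V S (fun p => coeff p.2 (g p.1))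
    ⟨(i1, d1), (hmem _ _).2 hd1, hd1⟩
  dsimp only at hne hmax
  have hint : ∀ i, ∃ p : MvPolynomial σ V,
      map V.subtype p = C ((coeff d0 (g i0))⁻¹) * g i := by
    intro i
    rw [← Set.mem_range, mem_range_map_iff_coeffs_subset]
    intro z hz
    rw [Finset.mem_coe, mem_coeffs_iff] at hz
    obtain ⟨d, hd, rfl⟩ := hz
    rw [mem_support_iff, coeff_C_mul] at hd
    rw [coeff_C_mul]
    have h1 := hmax (i, d) ((hmem _ _).2 (right_ne_zero_of_mul hd))
    exact ⟨⟨_, h1⟩, rfl⟩
  choose g' hg' using hint
  refine ⟨_, inv_ne_zero hne, g', hg', i0, d0, ?_⟩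
  apply V.subtype_injective
  rw [map_one, ← coeff_map, hg', coeff_C_mul, inv_mul_cancel₀ hne]

/-- a vector may be scaled to be integral and primitive -/
theorem prim0 {ι : Type} [Fintype ι] (x : ι → E) (hx : x ≠ 0) :
    ∃ s : E, s ≠ 0 ∧ ∃ w : ι → V, (∀ i, (w i : E) = s * x i) ∧ ∃ i, w i = 1 := by
  obtain ⟨i1, hi1⟩ := Function.ne_iff.1 hx
  obtain ⟨i0, _, hne, hmax⟩ := max_val V Finset.univ x ⟨i1, Finset.mem_univ _, hi1⟩
  refine ⟨_, inv_ne_zero hne, fun i => ⟨_, hmax i (Finset.mem_univ _)⟩, fun i => rfl, i0, ?_⟩
  apply Subtype.ext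
  exact inv_mul_cancel₀ hne

end prim

section red

variable {E : Type} [Field E] {V : ValuationSubring E} {n : ℕ} {F' : Type} [Field F']

theorem eval_hom {A B σ : Type} [CommRing A] [CommRing B] (φ : A →+* B) (w : σ → A)
    (f : MvPolynomial σ A) : eval (fun i => φ (w i)) (map φ f) = φ (eval w f) := by
  rw [eval_map]
  have h2 := hom_eval₂ f (RingHom.id A) φ w
  rw [eval₂_id] at h2
  rw [h2]
  rfl

theorem eval_V (f : MvPolynomial (Fin (n + 2)) V) (w : Fin (n + 2) → V) :
    eval (fun i => (w i : E)) (map V.subtype f) = (eval w f : V) :=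
  eval_hom V.subtype w f

theorem eval_red (π : V →+* F') (f : MvPolynomial (Fin (n + 2)) V) (w : Fin (n + 2) → V) :
    eval (fun i => π (w i)) (map π f) = π (eval w f) := eval_hom π w f

/-- if the special fibre is nonsingular then so is the generic fibre -/
theorem smooth_gen {f : MvPolynomial (Fin (n + 2)) V} (h3 : f.IsHomogeneous 3) (π : V →+* F')
    (hs : Smooth (map π f)) : Smooth (map V.subtype f) := by
  intro x hx h0
  by_contra hcon
  push Not at hcon
  obtain ⟨s, hs0, w, hw, i0, hi0⟩ := prim0 V x hx
  have hsx : (fun i => (w i : E)) = fun i => s * x i := funext hw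
  have e0 : eval w f = 0 := by
    apply Subtype.ext
    rw [← eval_V, hsx, eval_smul_hom (h3.map V.subtype), h0, mul_zero]
    rfl
  have e1 : ∀ i, eval w (pderiv i f) = 0 := by
    intro i
    apply Subtype.ext
    have h2 : (pderiv i f).IsHomogeneous 2 := by
      simpa using h3.pderiv (i := i)
    rw [← eval_V, hsx, eval_smul_hom (h2.map V.subtype), ← pderiv_map, hcon, mul_zero]
    rfl
  obtain ⟨i, hi⟩ := hs (fun i => π (w i)) (by
    intro h
    have := congrFun h i0
    rw [hi0, map_one] at this
    exact one_ne_zero this) (by rw [eval_red, e0, map_zero])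
  apply hi
  rw [pderiv_map, eval_red, e1, map_zero]

/-- the reduction of a linear subspace -/
def redL (L : Submodule E (Fin (n + 2) → E)) (π : V →+* F') (hπ : Function.Surjective π) :
    Submodule F' (Fin (n + 2) → F') where
  carrier := {y | ∃ w : Fin (n + 2) → V, (fun i => (w i : E)) ∈ L ∧ y = fun i => π (w i)}
  zero_mem' := ⟨0, L.zero_mem, by funext i; simp⟩
  add_mem' := by
    rintro _ _ ⟨w, hw, rfl⟩ ⟨w', hw', rfl⟩
    exact ⟨fun i => w i + w' i, L.add_mem hw hw', by funext i; simp⟩
  smul_mem' := by
    rintro c _ ⟨w, hw, rfl⟩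
    obtain ⟨b, rfl⟩ := hπ c
    exact ⟨fun i => b * w i, L.smul_mem (b : E) hw, by funext i; simp⟩

/-- the class is closed under specialisation -/
theorem red_sect {f : MvPolynomial (Fin (n + 2)) V} (h3 : f.IsHomogeneous 3) (π : V →+* F')
    (hπ : Function.Surjective π) (h : SectW n (map V.subtype f)) : SectW n (map π f) := by
  obtain ⟨L, hL0, hL, u, c, huc, hu, hD⟩ := h
  refine ⟨redL L π hπ, ?_, ?_, ?_⟩
  · obtain ⟨x, hxL, hx0⟩ := (Submodule.ne_bot_iff _).1 hL0
    obtain ⟨s, hs0, w, hw, i0, hi0⟩ := prim0 V x hx0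
    rw [Submodule.ne_bot_iff]
    refine ⟨fun i => π (w i), ⟨w, ?_, rfl⟩, ?_⟩
    · have hsx : (fun i => (w i : E)) = s • x := funext hw
      rw [hsx]
      exact L.smul_mem s hxL
    · intro h
      have := congrFun h i0
      rw [hi0, map_one] at this
      exact one_ne_zero this
  · rintro _ ⟨w, hw, rfl⟩
    rw [eval_red]
    have e0 : eval w f = 0 := by
      apply Subtype.ext
      rw [← eval_V]
      exact hL _ hw
    rw [e0, map_zero]
  · obtain ⟨s, hs0, g', hg', i0, d0, hd0⟩ := prim V
      (fun o : Option (Fin (n + 2)) => Option.elim o c u) (by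
        intro h
        rcases huc with h1 | h1
        · apply h1
          funext i
          exact congrFun h (some i)
        · exact h1 (congrFun h none))
    have hgu : ∀ i, map V.subtype (g' (some i)) = C s * u i := fun i => hg' (some i)
    have hgc : map V.subtype (g' none) = C s * c := hg' none
    refine ⟨fun i => map π (g' (some i)), map π (g' none), ?_, ?_, ?_⟩
    · have h1 : map π (g' i0) ≠ 0 := by
        intro h
        have h2 := congrArg (coeff d0) h
        rw [coeff_map, hd0, map_one, coeff_zero] at h2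
        exact one_ne_zero h2
      rcases i0 with _ | i0
      · exact Or.inr h1
      · left
        intro h
        exact h1 (congrFun h i0)
    · intro d
      refine ⟨fun i => coeff d (g' (some i)), ?_, by funext i; rw [coeff_map]⟩
      have h1 : (fun i => ((coeff d (g' (some i)) : V) : E)) =
          s • (fun i => coeff d (u i)) := by
        funext i
        have h2 := congrArg (coeff d) (hgu i)
        rw [coeff_map, coeff_C_mul] at h2
        exact h2
      rw [h1]
      exact L.smul_mem s (hu d)
    · have hCs : (C s : MvPolynomial (Fin (n + 2)) E) ≠ 0 := by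
        intro h
        exact hs0 (C_injective _ _ (h.trans (map_zero _).symm))
      have h1 := DD_smul (A := MvPolynomial (Fin (n + 2)) E)
        ((h3.map V.subtype).map (algebraMap E (MvPolynomial (Fin (n + 2)) E))) (C s) hCs u X c
      rw [hD, mul_zero] at h1
      have h2 : DD (map (algebraMap V (MvPolynomial (Fin (n + 2)) V)) f)
          (fun i => g' (some i)) (g' none) X = 0 := by
        apply map_injective V.subtype V.subtype_injective
        rw [map_zero, map_DD, map_map, ← h1, map_map]
        have h3 : (map V.subtype : MvPolynomial (Fin (n + 2)) V →+* _).comp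
            (algebraMap V (MvPolynomial (Fin (n + 2)) V)) =
            (algebraMap E (MvPolynomial (Fin (n + 2)) E)).comp V.subtype := by
          ext1 x
          exact map_C _ _
        have h4 : (fun i => map V.subtype (X i : MvPolynomial (Fin (n + 2)) V)) = X := by
          funext i
          rw [map_X]
        rw [h3, hgc, h4]
        congr 1
        funext i
        exact hgu i
      have h5 := congrArg (map π : MvPolynomial (Fin (n + 2)) V →+* _) h2
      rw [map_zero, map_DD, map_map] at h5
      rw [← h5, map_map]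
      have h3 : (map π : MvPolynomial (Fin (n + 2)) V →+* _).comp
          (algebraMap V (MvPolynomial (Fin (n + 2)) V)) =
          (algebraMap F' (MvPolynomial (Fin (n + 2)) F')).comp π := by
        ext1 x
        exact map_C _ _
      have h4 : (fun i => map π (X i : MvPolynomial (Fin (n + 2)) V)) = X := by
        funext i
        rw [map_X]
      rw [h3, h4]

end red

end Pool.Agent.CUB.H64
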