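import Pool.Agent.Helper88_CUB.QP

/-!
# Springer's theorem for forms of degree two over an arbitrary field
-/

set_option autoImplicit false
set_option linter.unusedSectionVars false

namespace Pool.Agent.CUB.H64

open MvPolynomial

/-- induction for forms of degree two -/
theorem quad_induction {σ L : Type} [CommRing L] {P : MvPolynomial σ L → Prop} (h0 : P 0)
    (hadd : ∀ p q, P p → P q → P (p + q)) (hmon : ∀ c i j, P (C c * (X i * X j)))
    (q : MvPolynomial σ L) (hq : q.IsHomogeneous 2) : P q := by
  classical
  have key : P (∑ d ∈ q.support, monomial d (coeff d q)) := by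
    have h1 : ∀ s : Finset (σ →₀ ℕ), s ⊆ q.support →
        P (∑ d ∈ s, monomial d (coeff d q)) := by
      intro s
      induction s using Finset.induction_on with
      | empty =>
        intro _
        simpa using h0
      | insert d s hd ih =>
        intro hs
        rw [Finset.sum_insert hd]
        refine hadd _ _ ?_ (ih fun x hx => hs (Finset.mem_insert_of_mem hx))
        have hdeg : d.degree = 2 := by
          have h2 := hq (mem_support_iff.1 (hs (Finset.mem_insert_self d s)))
          rw [Finsupp.degree_eq_weight_one]
          exact h2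
        obtain ⟨i, j, hij⟩ := H88.deg_two d hdeg
        have hm : (monomial d (coeff d q) : MvPolynomial σ L) = C (coeff d q) * (X i * X j) := by
          obtain ⟨c, hc⟩ : ∃ c : L, c = coeff d q := ⟨_, rfl⟩
          rw [← hc, hij]
          simp only [X, C_apply, monomial_mul, zero_add, mul_one]
        rw [hm]
        exact hmon _ i j
    exact h1 _ (Finset.Subset.refl _)
  rw [← q.as_sum] at key
  exact key

variable {F : Type} [Field F] {ι : Type} [Fintype ι]

/-- a polynomial of odd degree has an irreducible factor of odd degree -/
theorem odd_factor (h : Polynomial F) (hodd : Odd h.natDegree) :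
    ∃ p, Irreducible p ∧ p ∣ h ∧ Odd p.natDegree := by
  induction h using WfDvdMonoid.induction_on_irreducible with
  | zero => simp at hodd
  | unit u hu =>
    rw [Polynomial.natDegree_eq_zero_of_isUnit hu] at hodd
    simp at hodd
  | mul a i ha hi ih =>
    rw [Polynomial.natDegree_mul hi.ne_zero ha] at hodd
    rcases Nat.even_or_odd i.natDegree with h1 | h1
    · obtain ⟨p, hp, hpa, hpo⟩ := ih ((Nat.odd_add.1 hodd |> fun h => by
        rcases Nat.even_or_odd a.natDegree with h2 | h2
        · exact absurd (h.2 h2) (Nat.not_odd_iff_even.2 h1)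
        · exact h2))
      exact ⟨p, hp, hpa.mul_left _, hpo⟩
    · exact ⟨i, hi, dvd_mul_right _ _, h1⟩

/-- the leading coefficient of a form of degree two -/
theorem lead (q : MvPolynomial ι F) (hq : q.IsHomogeneous 2) (w : ι → Polynomial F) (M : ℕ)
    (hM : ∀ i, (w i).natDegree ≤ M) :
    (aeval w q).natDegree ≤ M + M ∧
      (aeval w q).coeff (M + M) = eval (fun i => (w i).coeff M) q := by
  refine quad_induction (P := fun q => (aeval w q).natDegree ≤ M + M ∧
      (aeval w q).coeff (M + M) = eval (fun i => (w i).coeff M) q) ?_ ?_ ?_ q hq
  · simp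
  · rintro p p' ⟨h1, h2⟩ ⟨h3, h4⟩
    rw [map_add, map_add, Polynomial.coeff_add, h2, h4]
    exact ⟨Polynomial.natDegree_add_le_of_degree_le h1 h3, rfl⟩
  · intro c i j
    rw [map_mul, map_mul, map_mul, map_mul, aeval_C, aeval_X, aeval_X, eval_C, eval_X, eval_X]
    have h1 : algebraMap F (Polynomial F) c = Polynomial.C c := rfl
    rw [h1]
    refine ⟨?_, ?_⟩
    · refine (Polynomial.natDegree_C_mul_le _ _).trans ?_
      exact Polynomial.natDegree_mul_le.trans (add_le_add (hM i) (hM j))
    · rw [Polynomial.coeff_C_mul, Polynomial.coeff_mul_add_eq_of_natDegree_le (hM i) (hM j)]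

/-- Springer's theorem for a simple extension -/
theorem springer_simple (q : MvPolynomial ι F) (hq : q.IsHomogeneous 2) (d : ℕ) :
    ∀ (p : Polynomial F), Irreducible p → p.natDegree = d → Odd d →
    ∀ v : ι → Polynomial F, (∃ i, ¬ p ∣ v i) → p ∣ aeval v q →
    ∃ w : ι → F, w ≠ 0 ∧ eval w q = 0 := by
  classical
  induction d using Nat.strong_induction_on with
  | _ d ih =>
    intro p hp hpd hodd v ⟨i1, hi1⟩ hv
    by_contra hcon
    push Not at hcon
    -- reduction modulo `p`
    set v' : ι → Polynomial F := fun i => v i % p with hv'
    have hmod : ∀ i, p ∣ v i - v' i := fun i =>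
      ⟨v i / p, by linear_combination -(EuclideanDomain.div_add_mod (v i) p)⟩
    have hv'q : p ∣ aeval v' q := by
      have h1 : ∀ x : Polynomial F, p ∣ x ↔ Ideal.Quotient.mk (Ideal.span {p}) x = 0 := by
        intro x
        rw [Ideal.Quotient.eq_zero_iff_mem, Ideal.mem_span_singleton]
      have h2 : ∀ i, Ideal.Quotient.mk (Ideal.span {p}) (v i) =
          Ideal.Quotient.mk (Ideal.span {p}) (v' i) := by
        intro i
        rw [← sub_eq_zero, ← map_sub, ← h1]
        exact hmod i
      rw [h1] at hv ⊢
      rw [aeval_def, hom_eval₂] at hv ⊢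
      rw [← hv]
      congr 1
      funext i
      exact (h2 i).symm
    have hv'1 : v' i1 ≠ 0 := by
      intro h
      apply hi1
      have := hmod i1
      rwa [h, sub_zero] at this
    have hpd0 : p ≠ 0 := hp.ne_zero
    have hv'd : ∀ i, (v' i).natDegree < d := by
      intro i
      have h1 : (v' i).degree < p.degree := EuclideanDomain.mod_lt (v i) hpd0
      rw [← hpd]
      by_cases h0 : v' i = 0
      · rw [h0, Polynomial.natDegree_zero, hpd]
        exact hodd.pos
      · exact Polynomial.natDegree_lt_natDegree h0 h1
    -- division by the greatest common divisor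
    let : NormalizedGCDMonoid (Polynomial F) := UniqueFactorizationMonoid.toNormalizedGCDMonoid _
    obtain ⟨w, hw, hgcd⟩ := Finset.extract_gcd v' (s := Finset.univ) ⟨i1, Finset.mem_univ _⟩
    set G := Finset.univ.gcd v' with hG
    have hwv : v' = fun i => G * w i := funext (fun i => hw i (Finset.mem_univ _))
    have hG0 : G ≠ 0 := by
      intro h
      apply hv'1
      rw [hw i1 (Finset.mem_univ _), h, zero_mul]
    have hpG : ¬ p ∣ G := by
      intro h
      have h1 : p ∣ v' i1 := h.trans (Finset.gcd_dvd (Finset.mem_univ _))
      have h2 := Polynomial.natDegree_le_of_dvd h1 hv'1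
      have h3 := hv'd i1
      omega
    have hpw : p ∣ aeval w q := by
      have h1 : aeval v' q = G ^ 2 * aeval w q := by
        rw [hwv]
        refine quad_induction (P := fun q => aeval (fun i => G * w i) q = G ^ 2 * aeval w q)
          ?_ ?_ ?_ q hq
        · simp
        · intro a b ha hb
          rw [map_add, map_add, ha, hb]
          ring
        · intro c i j
          simp only [map_mul, aeval_X, aeval_C]
          ring
      rw [h1] at hv'q
      rcases hp.prime.dvd_or_dvd hv'q with h2 | h2
      · exact absurd (hp.prime.dvd_of_dvd_pow h2) hpG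
      · exact h2
    have hwd : ∀ i, (w i).natDegree < d := by
      intro i
      by_cases h0 : v' i = 0
      · have h1 : w i = 0 := by
          rw [hw i (Finset.mem_univ _)] at h0
          exact (mul_eq_zero.1 h0).resolve_left hG0
        rw [h1, Polynomial.natDegree_zero]
        exact hodd.pos
      · have h1 : w i ∣ v' i := ⟨G, by rw [hw i (Finset.mem_univ _), mul_comm]⟩
        exact (Polynomial.natDegree_le_of_dvd h1 h0).trans_lt (hv'd i)
    -- the leading coefficients
    obtain ⟨i2, _, hi2⟩ := Finset.univ.exists_max_image (fun i => (w i).degree)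
      ⟨i1, Finset.mem_univ _⟩
    have hw2 : w i2 ≠ 0 := by
      intro h
      have h1 := hi2 i1 (Finset.mem_univ _)
      rw [h, Polynomial.degree_zero, le_bot_iff, Polynomial.degree_eq_bot] at h1
      apply hv'1
      rw [hw i1 (Finset.mem_univ _), h1, mul_zero]
    set M := (w i2).natDegree with hM
    have hM' : ∀ i, (w i).natDegree ≤ M := fun i =>
      Polynomial.natDegree_le_natDegree (hi2 i (Finset.mem_univ _))
    obtain ⟨hl1, hl2⟩ := lead q hq w M hM'
    have hc : (fun i => (w i).coeff M) ≠ 0 := by
      intro h
      have h1 := congrFun h i2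
      exact hw2 (Polynomial.leadingCoeff_eq_zero.1 h1)
    have hne := hcon _ hc
    rw [← hl2] at hne
    have hdeg : (aeval w q).natDegree = M + M :=
      le_antisymm hl1 (Polynomial.le_natDegree_of_ne_zero hne)
    obtain ⟨h, hh⟩ := hpw
    have hh0 : h ≠ 0 := by
      intro h0
      rw [hh, h0, mul_zero, Polynomial.coeff_zero] at hne
      exact hne rfl
    rw [hh, Polynomial.natDegree_mul hpd0 hh0, hpd] at hdeg
    have hho : Odd h.natDegree := by
      have h1 : Even (d + h.natDegree) := ⟨M, hdeg⟩
      rcases Nat.even_or_odd h.natDegree with h2 | h2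
      · exact absurd h1 (Nat.not_even_iff_odd.2 (hodd.add_even h2))
      · exact h2
    obtain ⟨p', hp', hp'h, hp'o⟩ := odd_factor h hho
    have hMd := hwd i2
    rw [← hM] at hMd
    have hp'd : p'.natDegree < d := by
      have := Polynomial.natDegree_le_of_dvd hp'h hh0
      omega
    obtain ⟨w0, hw0, hw0'⟩ := ih _ hp'd p' hp' rfl hp'o w (by
      by_contra hall
      push Not at hall
      have h1 : p' ∣ Finset.univ.gcd w := Finset.dvd_gcd (fun i _ => hall i)
      rw [hgcd] at h1
      exact hp'.not_isUnit (isUnit_of_dvd_one h1)) (by rw [hh]; exact hp'h.mul_left _)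
    exact hcon w0 hw0 hw0'

/-- Springer's theorem: a form of degree two which has a nontrivial zero in an extension of odd
degree has a nontrivial zero -/
theorem springer (N : ℕ) : ∀ (F F' : Type) [Field F] [Field F'] [Algebra F F']
    [FiniteDimensional F F'], Module.finrank F F' = N → Odd N →
    ∀ (q : MvPolynomial ι F), q.IsHomogeneous 2 → ∀ v : ι → F', v ≠ 0 → aeval v q = 0 →
    ∃ w : ι → F, w ≠ 0 ∧ eval w q = 0 := by
  induction N using Nat.strong_induction_on with
  | _ N ih =>
    intro F F' _ _ _ _ hN hodd q hq v hv0 hv
    by_cases htop : (⊥ : IntermediateField F F') = ⊤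
    · -- no extension
      have h1 : ∀ z : F', ∃ y : F, algebraMap F F' y = z := by
        intro z
        have hz : z ∈ (⊥ : IntermediateField F F') := by
          rw [htop]
          exact IntermediateField.mem_top
        exact IntermediateField.mem_bot.1 hz
      choose w hw using fun i => h1 (v i)
      refine ⟨w, ?_, ?_⟩
      · intro h
        apply hv0
        funext i
        rw [← hw i, h]
        exact map_zero _
      · have h2 : v = fun i => algebraMap F F' (w i) := funext (fun i => (hw i).symm)
        have h3 := aeval_algebraMap_apply F' w q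
        rw [h2] at hv
        have h4 : aeval w q = eval w q := by
          rw [← coe_aeval_eq_eval]
          rfl
        rw [h4] at h3
        apply (algebraMap F F').injective
        rw [map_zero, ← h3]
        exact hv
    · obtain ⟨α, hα⟩ : ∃ α : F', α ∉ (⊥ : IntermediateField F F') := by
        by_contra hcon
        push Not at hcon
        exact htop (eq_top_iff.2 (fun z _ => hcon z))
      set F1 := IntermediateField.adjoin F {α} with hF1
      have hmul := Module.finrank_mul_finrank F F1 F'
      rw [hN] at hmul
      have hodd1 : Odd (Module.finrank F F1) := by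
        rw [← hmul] at hodd
        exact (Nat.odd_mul.1 hodd).1
      have hodd2 : Odd (Module.finrank F1 F') := by
        rw [← hmul] at hodd
        exact (Nat.odd_mul.1 hodd).2
      have hgt : Module.finrank F F1 ≠ 1 := by
        intro h
        apply hα
        have h1 := IntermediateField.finrank_eq_one_iff.1 h
        rw [← h1, hF1]
        exact IntermediateField.mem_adjoin_simple_self F α
      have hlt : Module.finrank F1 F' < N := by
        have h1 := hodd1.pos
        have h2 := hodd2.pos
        rw [← hmul]
        have h3 : 2 ≤ Module.finrank F F1 := by omega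
        nlinarith
      obtain ⟨w1, hw10, hw1⟩ := ih _ hlt F1 F' rfl hodd2 (map (algebraMap F F1) q) (hq.map _) v
        hv0 (by
          rw [aeval_def, eval₂_map, ← IsScalarTower.algebraMap_eq]
          exact hv)
      have hint : IsIntegral F α := Algebra.IsIntegral.isIntegral α
      have hdeg : (minpoly F α).natDegree = Module.finrank F F1 :=
        (IntermediateField.adjoin.finrank hint).symm
      have hpol : ∀ z : F1, ∃ v : Polynomial F, Polynomial.aeval α v = (z : F') := by
        intro z
        have h1 : (z : F') ∈ (IntermediateField.adjoin F {α}).toSubalgebra := z.2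
        rw [IntermediateField.adjoin_simple_toSubalgebra_of_isAlgebraic hint.isAlgebraic,
          Algebra.adjoin_singleton_eq_range_aeval] at h1
        exact h1
      choose v1 hv1 using fun i => hpol (w1 i)
      refine springer_simple q hq _ (minpoly F α) (minpoly.irreducible hint) rfl
        (by rw [hdeg]; exact hodd1) v1 ?_ ?_
      · obtain ⟨i, hi⟩ := Function.ne_iff.1 hw10
        refine ⟨i, ?_⟩
        intro h
        obtain ⟨r, hr⟩ := h
        apply hi
        have h1 := hv1 i
        rw [hr, map_mul, minpoly.aeval, zero_mul] at h1
        exact Subtype.ext h1.symm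
      · apply minpoly.dvd
        have h1 : Polynomial.aeval α (aeval v1 q) = aeval (fun i => (w1 i : F')) q := by
          have h2 := comp_aeval_apply (R := F) (f := v1) (φ := Polynomial.aeval α) q
          rw [h2]
          congr 2
          funext i
          exact hv1 i
        rw [h1]
        have h3 : aeval (fun i => (w1 i : F')) q = algebraMap F1 F' (eval w1 (map (algebraMap F F1) q)) := by
          rw [eval_map, hom_eval₂, aeval_def, ← IsScalarTower.algebraMap_eq]
          rfl
        rw [h3, hw1, map_zero]

end Pool.Agent.CUB.H64
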