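import Pool.Agent.Helper64_CUB.Red
import Pool.Agent.Helper64_CUB.Spr

/-!
# Linear subspaces with an odd degree multisection of the quadric bundle
-/

set_option autoImplicit false
set_option linter.unusedSectionVars false

namespace Pool.Agent.CUB.H64

open MvPolynomial

/-- the field of rational functions of the coordinates of a point `T` of the affine space -/
abbrev FT (E : Type) [Field E] (n : ℕ) : Type := FractionRing (MvPolynomial (Fin (n + 2)) E)

/-- the class of the hypersurfaces which contain a linear subspace `L` such that the bundle of the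
residual quadrics has a multisection of odd degree: the residual quadric in the span of `L` and
the generic point `T` has a point `(a, t)` over an extension `F'` of odd degree of the field of the
rational functions of `T` -/
def InClass (E : Type) [Field E] (n : ℕ) (f : MvPolynomial (Fin (n + 2)) E) : Prop :=
  ∃ L : Submodule E (Fin (n + 2) → E), L ≠ ⊥ ∧ (∀ x ∈ L, eval x f = 0) ∧
    ∃ (F' : Type) (_ : Field F') (_ : Algebra (FT E n) F'),
      Odd (Module.finrank (FT E n) F') ∧
      ∃ (a : Fin (n + 2) → F') (t : F'), (a ≠ 0 ∨ t ≠ 0) ∧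
        a ∈ Submodule.span F'
          {z | ∃ x ∈ L, z = fun i => algebraMap (FT E n) F' (algebraMap E (FT E n) (x i))} ∧
        DD (map ((algebraMap (FT E n) F').comp (algebraMap E (FT E n))) f) a t
          (fun i => algebraMap (FT E n) F' (algebraMap (MvPolynomial (Fin (n + 2)) E) _ (X i))) = 0

theorem coeff_mul_C' {A σ : Type} [CommRing A] (p : MvPolynomial σ A) (a : A) (d : σ →₀ ℕ) :
    coeff d (p * C a) = coeff d p * a := by
  rw [mul_comm, coeff_C_mul, mul_comm]

theorem hom_of_X_mul {A σ : Type} [CommRing A] {q : MvPolynomial σ A} {i : σ} {n : ℕ}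
    (h : (X i * q).IsHomogeneous (n + 1)) : q.IsHomogeneous n := by
  intro d hd
  have h2 := @h (Finsupp.single i 1 + d) (by rw [coeff_X_mul]; exact hd)
  rw [map_add] at h2
  have h3 : Finsupp.weight (1 : σ → ℕ) (Finsupp.single i 1) = 1 := by
    simp [Finsupp.weight_single]
  rw [h3] at h2
  omega

section QF

variable {E : Type} [Field E] {n r : ℕ} {B : Type} [CommRing B]

/-- the quadratic form of the residual quadric in the coordinates with respect to the vectors
`b j` and `W` -/
noncomputable def QF (f : MvPolynomial (Fin (n + 2)) E) (ψ : E →+* B)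
    (b : Fin r → Fin (n + 2) → E) (W : Fin (n + 2) → B) : MvPolynomial (Option (Fin r)) B :=
  DD (map ((C : B →+* MvPolynomial (Option (Fin r)) B).comp ψ) f)
    (fun i => ∑ j, X (some j) * C (ψ (b j i))) (X none) (fun i => C (W i))

theorem QF_hom {f : MvPolynomial (Fin (n + 2)) E} (h3 : f.IsHomogeneous 3) (ψ : E →+* B)
    (b : Fin r → Fin (n + 2) → E) (W : Fin (n + 2) → B) : (QF f ψ b W).IsHomogeneous 2 := by
  apply hom_of_X_mul (i := none)
  unfold QF
  rw [mul_DD, eval_map, eval_map]
  have h1 : ∀ i, (∑ j, X (some j) * C (ψ (b j i)) :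
      MvPolynomial (Option (Fin r)) B).IsHomogeneous 1 := by
    intro i
    apply IsHomogeneous.sum
    intro j _
    have h1 := (isHomogeneous_X B (some j)).mul (isHomogeneous_C (Option (Fin r)) (ψ (b j i)))
    simpa using h1
  have h2 : ∀ i, (X none * C (W i) : MvPolynomial (Option (Fin r)) B).IsHomogeneous 1 := by
    intro i
    have h1 := (isHomogeneous_X B (none : Option (Fin r))).mul
      (isHomogeneous_C (Option (Fin r)) (W i))
    simpa using h1
  have h4 := h3.eval₂ ((C : B →+* MvPolynomial (Option (Fin r)) B).comp ψ)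
    (fun i => (∑ j, X (some j) * C (ψ (b j i))) + X none * C (W i)) (n := 1)
    (fun r => isHomogeneous_C _ _) (fun i => (h1 i).add (h2 i))
  have h5 := h3.eval₂ ((C : B →+* MvPolynomial (Option (Fin r)) B).comp ψ)
    (fun i => (∑ j, X (some j) * C (ψ (b j i)))) (n := 1)
    (fun r => isHomogeneous_C _ _) h1
  exact h4.sub h5

theorem QF_eval {B' : Type} [CommRing B'] (f : MvPolynomial (Fin (n + 2)) E) (ψ : E →+* B)
    (b : Fin r → Fin (n + 2) → E) (W : Fin (n + 2) → B) (χ : B →+* B')
    (v : Option (Fin r) → B') :
    eval₂ χ v (QF f ψ b W) = DD (map (χ.comp ψ) f)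
      (fun i => ∑ j, v (some j) * χ (ψ (b j i))) (v none) (fun i => χ (W i)) := by
  unfold QF
  rw [← coe_eval₂Hom, map_DD, map_map]
  have h1 : (eval₂Hom χ v).comp ((C : B →+* MvPolynomial (Option (Fin r)) B).comp ψ) =
      χ.comp ψ := by
    ext x
    simp
  rw [h1]
  congr 1
  · funext i
    rw [map_sum]
    apply Finset.sum_congr rfl
    intro j _
    rw [map_mul, coe_eval₂Hom, eval₂_X, eval₂_C]
  · rw [coe_eval₂Hom, eval₂_X]
  · funext i
    rw [coe_eval₂Hom, eval₂_C]

end QF

variable {E : Type} [Field E] {n : ℕ}

/-- Springer's theorem: an odd degree multisection gives a section -/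
theorem class_sectW {f : MvPolynomial (Fin (n + 2)) E} (h3 : f.IsHomogeneous 3)
    (h : InClass E n f) : SectW n f := by
  classical
  obtain ⟨L, hL0, hL, F', _, _, hodd, a, t, hat, ha, hD⟩ := h
  have hfd : FiniteDimensional (FT E n) F' := Module.finite_of_finrank_pos hodd.pos
  obtain ⟨r, hr⟩ : ∃ r, r = Module.finrank E L := ⟨_, rfl⟩
  set b : Module.Basis (Fin r) E L := Module.finBasisOfFinrankEq E L hr.symm with hb
  set ψ : E →+* FT E n := algebraMap E (FT E n) with hψ
  set W : Fin (n + 2) → FT E n := fun i => algebraMap (MvPolynomial (Fin (n + 2)) E) _ (X i)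
    with hW
  -- the coordinates of `a`
  obtain ⟨γ, hγ⟩ : ∃ γ : Fin r → F', a = fun i => ∑ j, γ j * algebraMap (FT E n) F'
      (ψ ((b j : Fin (n + 2) → E) i)) := by
    clear hat hD
    induction ha using Submodule.span_induction with
    | mem z hz =>
      obtain ⟨x, hx, rfl⟩ := hz
      refine ⟨fun j => algebraMap (FT E n) F' (ψ (b.repr ⟨x, hx⟩ j)), ?_⟩
      funext i
      have h1 := b.sum_repr ⟨x, hx⟩
      have h2 : x i = ∑ j, b.repr ⟨x, hx⟩ j * (b j : Fin (n + 2) → E) i := by
        have h3 := congrArg (fun y : L => (y : Fin (n + 2) → E) i) h1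
        dsimp only at h3
        rw [← h3, Submodule.coe_sum, Finset.sum_apply]
        rfl
      conv_lhs => rw [h2]
      rw [map_sum, map_sum]
      apply Finset.sum_congr rfl
      intro j _
      rw [map_mul, map_mul]
    | zero => exact ⟨0, by funext i; simp⟩
    | add x y _ _ hx hy =>
      obtain ⟨γ, hγ⟩ := hx
      obtain ⟨γ', hγ'⟩ := hy
      refine ⟨γ + γ', ?_⟩
      rw [hγ, hγ']
      funext i
      simp only [Pi.add_apply, add_mul, Finset.sum_add_distrib]
    | smul c x _ hx =>
      obtain ⟨γ, hγ⟩ := hx
      refine ⟨c • γ, ?_⟩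
      rw [hγ]
      funext i
      simp only [Pi.smul_apply, smul_eq_mul, Finset.mul_sum, mul_assoc]
  set q := QF f ψ (fun j => (b j : Fin (n + 2) → E)) W with hq
  have hq2 : q.IsHomogeneous 2 := QF_hom h3 _ _ _
  set v : Option (Fin r) → F' := fun o => Option.elim o t γ with hv
  have hv0 : v ≠ 0 := by
    intro h0
    have h1 : t = 0 := congrFun h0 none
    have h2 : γ = 0 := funext (fun j => congrFun h0 (some j))
    rcases hat with h | h
    · apply h
      rw [hγ, h2]
      funext i
      simp
    · exact h h1
  obtain ⟨w, hw0, hw⟩ := springer _ (FT E n) F' rfl hodd q hq2 v hv0 (by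
    rw [aeval_def, hq, QF_eval, ← hD]
    congr 1
    exact hγ.symm)
  -- denominators
  obtain ⟨D, hDw⟩ := IsLocalization.exist_integer_multiples_of_finite
    (nonZeroDivisors (MvPolynomial (Fin (n + 2)) E)) w
  choose g hg using hDw
  have hg' : ∀ o, algebraMap (MvPolynomial (Fin (n + 2)) E) (FT E n) (g o) =
      algebraMap (MvPolynomial (Fin (n + 2)) E) (FT E n) (D : MvPolynomial (Fin (n + 2)) E) *
        w o := by
    intro o
    rw [hg, Algebra.smul_def]
  have hinj := IsFractionRing.injective (MvPolynomial (Fin (n + 2)) E) (FT E n)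
  have hD0 : algebraMap (MvPolynomial (Fin (n + 2)) E) (FT E n)
      (D : MvPolynomial (Fin (n + 2)) E) ≠ 0 := by
    intro h
    exact nonZeroDivisors.ne_zero D.2 (hinj (h.trans (map_zero _).symm))
  have hqg : eval (fun o => algebraMap (MvPolynomial (Fin (n + 2)) E) (FT E n) (g o)) q = 0 := by
    have h1 : (fun o => algebraMap (MvPolynomial (Fin (n + 2)) E) (FT E n) (g o)) =
        fun o => algebraMap (MvPolynomial (Fin (n + 2)) E) (FT E n)
          (D : MvPolynomial (Fin (n + 2)) E) * w o := funext hg'
    rw [h1, eval_smul_hom hq2, hw, mul_zero]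
  have hgs : ∀ j, g (some j) = 0 → w (some j) = 0 := by
    intro j h
    have h1 := hg' (some j)
    rw [h, map_zero] at h1
    exact (mul_eq_zero.1 h1.symm).resolve_left hD0
  refine ⟨L, hL0, hL, fun i => ∑ j, g (some j) * C ((b j : Fin (n + 2) → E) i), g none,
    ?_, ?_, ?_⟩
  · by_contra hcon
    push Not at hcon
    obtain ⟨hu, hc⟩ := hcon
    apply hw0
    funext o
    rcases o with _ | j
    · have h1 := hg' none
      rw [hc, map_zero] at h1
      exact (mul_eq_zero.1 h1.symm).resolve_left hD0
    · apply hgs
      ext d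
      rw [coeff_zero]
      have h1 : ∑ j, coeff d (g (some j)) • b j = 0 := by
        apply Subtype.ext
        rw [Submodule.coe_sum]
        funext i
        have h2 := congrArg (coeff d) (congrFun hu i)
        rw [coeff_sum] at h2
        rw [Finset.sum_apply]
        simp only [coeff_mul_C'] at h2
        exact h2
      exact Fintype.linearIndependent_iff.1 b.linearIndependent _ h1 j
  · intro d
    have h1 : (fun i => coeff d (∑ j, g (some j) * C ((b j : Fin (n + 2) → E) i))) =
        ∑ j, coeff d (g (some j)) • (b j : Fin (n + 2) → E) := by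
      funext i
      rw [coeff_sum, Finset.sum_apply]
      simp only [coeff_mul_C']
      rfl
    rw [h1]
    exact L.sum_mem (fun j _ => L.smul_mem _ (b j).2)
  · apply hinj
    rw [map_zero, map_DD, map_map, ← hqg]
    have h1 := QF_eval f ψ (fun j => (b j : Fin (n + 2) → E)) W (RingHom.id _)
      (fun o => algebraMap (MvPolynomial (Fin (n + 2)) E) (FT E n) (g o))
    rw [eval₂_id] at h1
    rw [hq, h1, RingHom.id_comp]
    congr 1
    funext i
    rw [map_sum]
    apply Finset.sum_congr rfl
    intro j _
    rw [map_mul]
    rfl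

/-- a section is a multisection of degree one -/
theorem sectW_class {f : MvPolynomial (Fin (n + 2)) E} (h : SectW n f) : InClass E n f := by
  classical
  obtain ⟨L, hL0, hL, u, c, huc, hu, hD⟩ := h
  have hinj := IsFractionRing.injective (MvPolynomial (Fin (n + 2)) E) (FT E n)
  refine ⟨L, hL0, hL, FT E n, inferInstance, Algebra.id _, ?_,
    fun i => algebraMap (MvPolynomial (Fin (n + 2)) E) _ (u i),
    algebraMap (MvPolynomial (Fin (n + 2)) E) _ c, ?_, ?_, ?_⟩
  · rw [Module.finrank_self]
    exact odd_one
  · rcases huc with h | h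
    · left
      intro h0
      apply h
      funext i
      exact hinj ((congrFun h0 i).trans (map_zero _).symm)
    · right
      intro h0
      exact h (hinj (h0.trans (map_zero _).symm))
  · have h1 : (fun i => algebraMap (MvPolynomial (Fin (n + 2)) E) (FT E n) (u i)) =
        ∑ d ∈ Finset.univ.biUnion (fun i => (u i).support),
          algebraMap (MvPolynomial (Fin (n + 2)) E) (FT E n) (monomial d 1) •
            (fun i => algebraMap E (FT E n) (coeff d (u i))) := by
      funext i
      rw [Finset.sum_apply]
      have h2 : u i = ∑ d ∈ Finset.univ.biUnion (fun i => (u i).support),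
          monomial d 1 * C (coeff d (u i)) := by
        conv_lhs => rw [(u i).as_sum]
        rw [Finset.sum_subset (Finset.subset_biUnion_of_mem (fun i => (u i).support)
          (Finset.mem_univ i))]
        · apply Finset.sum_congr rfl
          intro d _
          rw [mul_comm, C_mul_monomial, mul_one]
        · intro d _ hd
          rw [notMem_support_iff.1 hd, map_zero]
      conv_lhs => rw [h2]
      rw [map_sum]
      apply Finset.sum_congr rfl
      intro d _
      rw [map_mul]
      rfl
    rw [h1]
    apply Submodule.sum_mem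
    intro d _
    apply Submodule.smul_mem
    exact Submodule.subset_span ⟨_, hu d, rfl⟩
  · have h1 := congrArg (algebraMap (MvPolynomial (Fin (n + 2)) E) (FT E n)) hD
    rw [map_zero, map_DD, map_map] at h1
    exact h1

/-- two complementary linear subspaces -/
theorem compl_sectW [Infinite E] {f : MvPolynomial (Fin (n + 2)) E}
    {L₁ L₂ : Submodule E (Fin (n + 2) → E)} (h : IsCompl L₁ L₂) (h0 : L₁ ≠ ⊥)
    (h1 : ∀ x ∈ L₁, eval x f = 0) (h2 : ∀ x ∈ L₂, eval x f = 0) : SectW n f := by
  classical
  set P := L₁.projection L₂ h with hP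
  set u : Fin (n + 2) → MvPolynomial (Fin (n + 2)) E :=
    fun i => -∑ k, C (P (Pi.single k 1) i) * X k with hu
  have hev : ∀ T i, eval T (u i) = -(P T i) := by
    intro T i
    rw [hu]
    simp only [map_neg, map_sum, map_mul, eval_C, eval_X]
    congr 1
    have h3 : T = ∑ k, T k • (Pi.single k 1 : Fin (n + 2) → E) := by
      funext j
      rw [Finset.sum_apply, Finset.sum_eq_single j]
      · simp
      · intro b _ hb
        simp [Pi.single_eq_of_ne hb.symm]
      · simp
    conv_rhs => rw [h3]
    rw [map_sum, Finset.sum_apply]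
    apply Finset.sum_congr rfl
    intro k _
    rw [map_smul, Pi.smul_apply, smul_eq_mul, mul_comm]
  have hmap : ∀ (z : Fin (n + 2) → MvPolynomial (Fin (n + 2)) E) (T : Fin (n + 2) → E),
      eval T (eval z (map (algebraMap E (MvPolynomial (Fin (n + 2)) E)) f)) =
        eval (fun i => eval T (z i)) f := by
    intro z T
    rw [eval_map, hom_eval₂]
    have h4 : (eval T).comp (algebraMap E (MvPolynomial (Fin (n + 2)) E)) = RingHom.id E := by
      ext c; simp
    rw [h4, eval₂_id]
  refine ⟨L₁, h0, h1, u, 1, Or.inr one_ne_zero, ?_, ?_⟩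
  · intro d
    have h3 : (fun i => coeff d (u i)) = -∑ k, coeff d (X k : MvPolynomial (Fin (n + 2)) E) •
        P (Pi.single k 1) := by
      funext i
      rw [hu, Pi.neg_apply, Finset.sum_apply, coeff_neg, coeff_sum]
      congr 1
      apply Finset.sum_congr rfl
      intro k _
      rw [coeff_C_mul, Pi.smul_apply, smul_eq_mul, mul_comm]
    rw [h3]
    apply L₁.neg_mem
    apply L₁.sum_mem
    intro k _
    exact L₁.smul_mem _ (Submodule.projection_apply_mem h _)
  · rw [← one_mul (DD _ u 1 X), mul_DD]
    have e1 : eval (fun i => u i + 1 * X i)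
        (map (algebraMap E (MvPolynomial (Fin (n + 2)) E)) f) = 0 := by
      apply MvPolynomial.funext
      intro T
      rw [hmap, map_zero]
      apply h2
      have h3 : (fun i => eval T (u i + 1 * X i)) = L₂.projection L₁ h.symm T := by
        funext i
        rw [Submodule.projection_eq_self_sub_projection h, map_add, hev, one_mul, eval_X,
          Pi.sub_apply]
        ring
      rw [h3]
      exact Submodule.projection_apply_mem h.symm _
    have e2 : eval u (map (algebraMap E (MvPolynomial (Fin (n + 2)) E)) f) = 0 := by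
      apply MvPolynomial.funext
      intro T
      rw [hmap, map_zero]
      apply h1
      have h3 : (fun i => eval T (u i)) = -P T := by
        funext i
        rw [hev]
        rfl
      rw [h3]
      exact L₁.neg_mem (Submodule.projection_apply_mem h _)
    rw [e1, e2, sub_zero]

end Pool.Agent.CUB.H64
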