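import Pool.Agent.Helper64_CUB.Odd

/-!
# Sections outside the linear subspace
-/

set_option autoImplicit false
set_option linter.unusedSectionVars false

namespace Pool.Agent.CUB.H64

open MvPolynomial

section expand

variable {σ A : Type} [Fintype σ] [CommRing A]

/-- the expansion of a form of degree two -/
theorem expandR [DecidableEq σ] (q : MvPolynomial σ A) (hq : q.IsHomogeneous 2) (v w : σ → A)
    (a b : A) :
    eval (fun i => a * v i + b * w i) q =
      a ^ 2 * eval v q + a * b * (∑ i, w i * eval v (pderiv i q)) + b ^ 2 * eval w q := by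
  refine quad_induction (P := fun q => eval (fun i => a * v i + b * w i) q =
      a ^ 2 * eval v q + a * b * (∑ i, w i * eval v (pderiv i q)) + b ^ 2 * eval w q)
    ?_ ?_ ?_ q hq
  · simp
  · intro p p' hp hp'
    simp only [map_add, mul_add, Finset.sum_add_distrib]
    rw [hp, hp']
    ring
  · intro c i j
    have hp : ∀ k, w k * eval v (pderiv k (C c * (X i * X j) : MvPolynomial σ A)) =
        c * (v j * (if k = i then w k else 0) + v i * (if k = j then w k else 0)) := by
      intro k
      rw [pderiv_C_mul, pderiv_mul, pderiv_X, pderiv_X, map_mul, eval_C]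
      by_cases h1 : k = i <;> by_cases h2 : k = j
      · subst h1; subst h2
        simp
        ring
      · subst h1
        simp [h2]
        ring
      · subst h2
        simp [h1]
        ring
      · simp [h1, h2]
    simp only [hp]
    rw [← Finset.mul_sum, Finset.sum_add_distrib, ← Finset.mul_sum, ← Finset.mul_sum,
      Finset.sum_ite_eq', Finset.sum_ite_eq', if_pos (Finset.mem_univ _),
      if_pos (Finset.mem_univ _)]
    simp only [map_mul, eval_C, eval_X]
    ring

/-- a quadric with a nonsingular point has a point with a nonzero coordinate `j` -/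
theorem strong_pt [DecidableEq σ] [IsDomain A] (q : MvPolynomial σ A) (hq : q.IsHomogeneous 2)
    (v : σ → A) (hv : eval v q = 0) (hs : ∃ i, eval v (pderiv i q) ≠ 0) (j : σ) :
    ∃ x : σ → A, x j ≠ 0 ∧ eval x q = 0 := by
  by_cases hvj : v j = 0
  · obtain ⟨w, hwj, hwB⟩ : ∃ w : σ → A, w j = 1 ∧ ∑ i, w i * eval v (pderiv i q) ≠ 0 := by
      by_cases hD : eval v (pderiv j q) = 0
      · obtain ⟨i, hi⟩ := hs
        have hij : i ≠ j := by
          intro h
          rw [h] at hi
          exact hi hD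
        refine ⟨fun k => (Pi.single i 1 : σ → A) k + (Pi.single j 1 : σ → A) k, ?_, ?_⟩
        · simp [hij.symm]
        · simp only [add_mul, Finset.sum_add_distrib]
          have h1 : ∀ k0 : σ, ∑ k, (Pi.single k0 1 : σ → A) k * eval v (pderiv k q) =
              eval v (pderiv k0 q) := by
            intro k0
            rw [Finset.sum_eq_single k0]
            · simp
            · intro b _ hb
              simp [hb]
            · simp
          rw [h1, h1, hD, add_zero]
          exact hi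
      · refine ⟨Pi.single j 1, by simp, ?_⟩
        rw [Finset.sum_eq_single j]
        · simpa using hD
        · intro b _ hb
          simp [hb]
        · simp
    refine ⟨fun i => eval w q * v i + (-(∑ i, w i * eval v (pderiv i q))) * w i, ?_, ?_⟩
    · simp only [hvj, hwj, mul_zero, zero_add, mul_one]
      exact neg_ne_zero.2 hwB
    · rw [expandR q hq, hv]
      ring
  · exact ⟨v, hvj, hv⟩

end expand

variable {𝕜 : Type} [Field 𝕜]

/-- a polynomial in rational functions of `T` which does not vanish at a point -/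
theorem subst_ne {n m : ℕ} (T0 : MvPolynomial (Fin (n + 2)) 𝕜)
    (Tj : Fin m → MvPolynomial (Fin (n + 2)) 𝕜) (κ : RA 𝕜 m →ₐ[𝕜] FT 𝕜 n)
    (hκ : ∀ j, κ (X j) * algebraMap (MvPolynomial (Fin (n + 2)) 𝕜) (FT 𝕜 n) T0 =
      algebraMap (MvPolynomial (Fin (n + 2)) 𝕜) (FT 𝕜 n) (Tj j))
    (S : Fin (n + 2) → 𝕜) (hS : eval S T0 = 1) (g : RA 𝕜 m)
    (hg : eval (fun j => eval S (Tj j)) g ≠ 0) : κ g ≠ 0 := by
  have key : ∃ (N : ℕ) (P : MvPolynomial (Fin (n + 2)) 𝕜),
      algebraMap (MvPolynomial (Fin (n + 2)) 𝕜) (FT 𝕜 n) P =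
        κ g * algebraMap (MvPolynomial (Fin (n + 2)) 𝕜) (FT 𝕜 n) T0 ^ N ∧
      eval S P = eval (fun j => eval S (Tj j)) g := by
    clear hg
    induction g using MvPolynomial.induction_on with
    | C c =>
      refine ⟨0, C c, ?_, ?_⟩
      · rw [pow_zero, mul_one]
        exact (κ.commutes c).symm
      · rw [eval_C, eval_C]
    | add p q hp hq =>
      obtain ⟨N, P, h1, h2⟩ := hp
      obtain ⟨N', P', h1', h2'⟩ := hq
      refine ⟨N + N', T0 ^ N' * P + T0 ^ N * P', ?_, ?_⟩
      · rw [map_add, map_mul, map_mul, map_pow, map_pow, h1, h1', map_add]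
        ring
      · rw [map_add, map_mul, map_mul, map_pow, map_pow, hS, h2, h2', map_add]
        ring
    | mul_X p j hp =>
      obtain ⟨N, P, h1, h2⟩ := hp
      refine ⟨N + 1, P * Tj j, ?_, ?_⟩
      · rw [map_mul, map_mul, h1, ← hκ j]
        ring
      · rw [map_mul, map_mul, h2, eval_X]
  obtain ⟨N, P, h1, h2⟩ := key
  intro h0
  rw [h0, zero_mul] at h1
  have h3 : P = 0 := IsFractionRing.injective (MvPolynomial (Fin (n + 2)) 𝕜) (FT 𝕜 n)
    (h1.trans (map_zero _).symm)
  apply hg
  rw [← h2, h3, map_zero]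

/-- a section outside of the linear subspace -/
theorem strong [Infinite 𝕜] {n : ℕ} {f : MvPolynomial (Fin (n + 2)) 𝕜}
    (h3 : f.IsHomogeneous 3) (hf : Smooth f) (h : SectW n f) :
    ∃ L : Submodule 𝕜 (Fin (n + 2) → 𝕜), L ≠ ⊥ ∧ (∀ x ∈ L, eval x f = 0) ∧
      ∃ (a : Fin (n + 2) → FT 𝕜 n) (t : FT 𝕜 n), t ≠ 0 ∧
        a ∈ Submodule.span (FT 𝕜 n) {z | ∃ x ∈ L, z = fun i => algebraMap 𝕜 (FT 𝕜 n) (x i)} ∧
        aeval (fun i => a i + t * algebraMap (MvPolynomial (Fin (n + 2)) 𝕜) (FT 𝕜 n) (X i)) f =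
          0 := by
  classical
  obtain ⟨L, l, m, M, N, v, t, hL0, hL, hlm, hMN, hNM, hML, hne, hq⟩ := sect_core hf h
  have hL' : ∀ a : Fin (l + 1) → 𝕜, eval (Sum.elim a 0) (lin M f) = 0 := by
    intro a
    rw [eval_lin]
    exact hL _ (hML a)
  obtain ⟨x, hx0, hx⟩ := strong_pt (qd (lin M f)) (qd_hom (lin_hom M h3) hL') _ hq
    (smooth_point (lin_smooth hMN hNM hf) hL' v t hne hq) (Fin.last (l + 1))
  set v' : Fin (l + 1) → RA 𝕜 m := Fin.init x with hv'
  set t' : RA 𝕜 m := x (Fin.last (l + 1)) with ht'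
  have hx' : ev v' t' (qd (lin M f)) = 0 := by
    unfold ev
    rw [hv', ht', Fin.snoc_init_self]
    exact hx
  have hxx : aeval (xx v' t') (lin M f) = 0 := by
    rw [← ev_aeval, ← mul_qd hL', map_mul, hx', mul_zero]
  -- the coordinates of the point `T`
  set α := algebraMap (MvPolynomial (Fin (n + 2)) 𝕜) (FT 𝕜 n) with hα
  have hinj : Function.Injective α := IsFractionRing.injective _ _
  set T' : Fin (l + 1) ⊕ Fin (m + 1) → MvPolynomial (Fin (n + 2)) 𝕜 := mv N X with hT'
  have hNMx : ∀ x : Fin (l + 1) ⊕ Fin (m + 1) → 𝕜, mv N (mv M x) = x := by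
    intro x
    rw [mv_mv, hNM, mv_one]
  have hevN : ∀ (T : Fin (n + 2) → 𝕜) (i : Fin (l + 1) ⊕ Fin (m + 1)),
      eval T (T' i) = mv N T i := by
    intro T i
    rw [hT', mv_apply, map_sum, mv_apply]
    apply Finset.sum_congr rfl
    intro j _
    have : algebraMap 𝕜 (MvPolynomial (Fin (n + 2)) 𝕜) (N i j) = C (N i j) := rfl
    rw [this, map_mul, eval_C, eval_X]
    rfl
  obtain ⟨y, hy⟩ : ∃ y : Fin m → 𝕜, eval y t' ≠ 0 := by
    by_contra hcon
    push Not at hcon
    exact hx0 (MvPolynomial.funext (fun y => by rw [hcon y, map_zero]))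
  set S : Fin (n + 2) → 𝕜 := mv M (Sum.elim 0 (Fin.snoc y 1 : Fin (m + 1) → 𝕜)) with hS
  have hST : ∀ j, eval S (T' (Sum.inr j)) = (Fin.snoc y 1 : Fin (m + 1) → 𝕜) j := by
    intro j
    rw [hevN, hS, hNMx, Sum.elim_inr]
  have hS1 : eval S (T' (Sum.inr (Fin.last m))) = 1 := by
    rw [hST, Fin.snoc_last]
  have hT0 : α (T' (Sum.inr (Fin.last m))) ≠ 0 := by
    intro h0
    have h1 : T' (Sum.inr (Fin.last m)) = 0 := hinj (h0.trans (map_zero _).symm)
    rw [h1, map_zero] at hS1
    exact zero_ne_one hS1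
  set κ : RA 𝕜 m →ₐ[𝕜] FT 𝕜 n :=
    aeval (fun j => α (T' (Sum.inr j.castSucc)) / α (T' (Sum.inr (Fin.last m)))) with hκ
  have hκX : ∀ j, κ (X j) = α (T' (Sum.inr j.castSucc)) / α (T' (Sum.inr (Fin.last m))) := by
    intro j
    rw [hκ, aeval_X]
  have hκt : κ t' ≠ 0 := by
    apply subst_ne (T' (Sum.inr (Fin.last m))) (fun j => T' (Sum.inr j.castSucc)) κ ?_ S hS1
    · have h1 : (fun j : Fin m => eval S (T' (Sum.inr j.castSucc))) = y := by
        funext j
        rw [hST]
        exact Fin.snoc_castSucc (α := fun _ => 𝕜) (x := 1) (p := y) (i := j)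
      rw [h1]
      exact hy
    · intro j
      rw [hκX]
      exact div_mul_cancel₀ _ hT0
  have hκb : ∀ j, κ (bb m j) = α (T' (Sum.inr j)) / α (T' (Sum.inr (Fin.last m))) := by
    intro j
    refine Fin.lastCases ?_ (fun j => ?_) j
    · rw [bb_last, map_one, div_self hT0]
    · rw [show bb (𝕜 := 𝕜) m j.castSucc = X j from
        Fin.snoc_castSucc (α := fun _ => RA 𝕜 m) (x := 1) (p := fun j => X j) (i := j), hκX]
  set τ : FT 𝕜 n := κ t' / α (T' (Sum.inr (Fin.last m))) with hτ
  set z : Fin (l + 1) → FT 𝕜 n := fun i => κ (v' i) - τ * α (T' (Sum.inl i)) with hz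
  refine ⟨L, hL0, hL, mv M (Sum.elim z 0), τ, div_ne_zero hκt hT0, ?_, ?_⟩
  · have h1 : mv M (Sum.elim z 0) = ∑ j, z j • (fun i => algebraMap 𝕜 (FT 𝕜 n)
        (mv M (Sum.elim (Pi.single j 1) 0 : Fin (l + 1) ⊕ Fin (m + 1) → 𝕜) i)) := by
      funext i
      rw [mv_apply, Fintype.sum_sum_type, Finset.sum_apply]
      simp only [Sum.elim_inl, Sum.elim_inr, Pi.zero_apply, mul_zero, Finset.sum_const_zero,
        add_zero, Pi.smul_apply, smul_eq_mul]
      apply Finset.sum_congr rfl
      intro j _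
      have h2 : mv M (Sum.elim (Pi.single j 1) 0 : Fin (l + 1) ⊕ Fin (m + 1) → 𝕜) i =
          M i (Sum.inl j) := by
        rw [mv_apply, Fintype.sum_sum_type]
        simp only [Sum.elim_inl, Sum.elim_inr, Pi.zero_apply, mul_zero, Finset.sum_const_zero,
          add_zero]
        rw [Finset.sum_eq_single j]
        · simp
        · intro b _ hb
          simp [hb]
        · simp
      rw [h2, mul_comm]
    rw [h1]
    apply Submodule.sum_mem
    intro j _
    apply Submodule.smul_mem
    exact Submodule.subset_span ⟨_, hML (Pi.single j 1), rfl⟩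
  · have h1 : (fun i => mv M (Sum.elim z 0) i + τ * α (X i)) =
        mv M (fun i => κ (xx v' t' i)) := by
      have h2 : (fun i => α (X i)) = mv M (fun i => α (T' i)) := by
        funext i
        have h4 : mv M T' = X := by
          rw [hT', mv_mv, hMN, mv_one]
        have h5 : α (X i) = α (mv M T' i) := by rw [h4]
        rw [h5]
        exact mv_hom (IsScalarTower.toAlgHom 𝕜 (MvPolynomial (Fin (n + 2)) 𝕜) (FT 𝕜 n)) M T' i
      funext i
      have h6 : α (X i) = mv M (fun i => α (T' i)) i := congrFun h2 i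
      rw [h6, ← mv_add_mul]
      congr 1
      funext j
      rcases j with j | j
      · simp only [Sum.elim_inl, hz, xx]
        ring
      · simp only [Sum.elim_inr, Pi.zero_apply, xx, map_mul, hκb, hτ, zero_add]
        ring
    rw [h1, ← aeval_lin]
    have h7 := comp_aeval_apply (R := 𝕜) (f := xx v' t') (φ := κ) (lin M f)
    rw [hxx, map_zero] at h7
    exact h7.symm

end Pool.Agent.CUB.H64
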