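import Pool.Agent.Helper64_CUB.DD

/-!
# The quadric bundle given by projection from a linear subspace (coordinates)

`f(a, b)`, `a` in `l + 1`, `b` in `m + 1` variables, is a form of degree three which vanishes on
`b = 0`.  `qd f` is the form of degree two in the variables `(a, t)` over `𝕜[y]` with
`f(a, t (y, 1)) = t qd f`.
-/

set_option autoImplicit false

namespace Pool.Agent.CUB.H64

open MvPolynomial

variable {𝕜 : Type} [Field 𝕜]

/-- a hypersurface is nonsingular: at every point a partial derivative does not vanish -/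
def Smooth {σ : Type} (f : MvPolynomial σ 𝕜) : Prop :=
  ∀ x : σ → 𝕜, x ≠ 0 → eval x f = 0 → ∃ i, eval x (pderiv i f) ≠ 0

section zeroL

variable {l m : ℕ} {f : MvPolynomial (Fin (l + 1) ⊕ Fin (m + 1)) 𝕜}

theorem zero_L [Infinite 𝕜] (hL : ∀ a : Fin (l + 1) → 𝕜, eval (Sum.elim a 0) f = 0)
    {B : Type} [CommRing B] [Algebra 𝕜 B] (a : Fin (l + 1) → B) :
    aeval (Sum.elim a 0) f = 0 := by
  have h1 : aeval (Sum.elim (fun i => (X i : MvPolynomial (Fin (l + 1)) 𝕜)) 0) f = 0 := by
    apply MvPolynomial.funext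
    intro x
    rw [map_zero, ← hL x, aeval_def, hom_eval₂]
    have h2 : (eval x).comp (algebraMap 𝕜 (MvPolynomial (Fin (l + 1)) 𝕜)) = RingHom.id 𝕜 := by
      ext c; simp
    rw [h2, eval₂_id]
    congr 2
    funext i
    rcases i with i | i <;> simp
  have h3 := congrArg (aeval a) h1
  rw [map_zero] at h3
  rw [← h3, comp_aeval_apply]
  congr 2
  funext i
  rcases i with i | i <;> simp

end zeroL

section quadric

variable (l m : ℕ)

/-- the polynomial ring of the base of the projection -/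
abbrev RA (𝕜 : Type) [Field 𝕜] (m : ℕ) : Type := MvPolynomial (Fin m) 𝕜

/-- the point `(y, 1)` of the base -/
noncomputable def bb : Fin (m + 1) → RA 𝕜 m := Fin.snoc (fun j => X j) 1

variable {l m}

/-- the point `(a, t (y, 1))` -/
noncomputable def zz : Fin (l + 1) ⊕ Fin (m + 1) → MvPolynomial (Fin (l + 2)) (RA 𝕜 m) :=
  Sum.elim (fun i => X i.castSucc) (fun j => X (Fin.last (l + 1)) * C (bb m j))

/-- the quadratic form of the quadric bundle -/
noncomputable def qd (f : MvPolynomial (Fin (l + 1) ⊕ Fin (m + 1)) 𝕜) :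
    MvPolynomial (Fin (l + 2)) (RA 𝕜 m) :=
  DD (map (algebraMap 𝕜 (MvPolynomial (Fin (l + 2)) (RA 𝕜 m))) f)
    (Sum.elim (fun i => X i.castSucc) 0) (X (Fin.last (l + 1)))
    (Sum.elim 0 (fun j => C (bb m j)))

variable {f : MvPolynomial (Fin (l + 1) ⊕ Fin (m + 1)) 𝕜}

theorem mul_qd [Infinite 𝕜] (hL : ∀ a : Fin (l + 1) → 𝕜, eval (Sum.elim a 0) f = 0) :
    X (Fin.last (l + 1)) * qd f = aeval zz f := by
  unfold qd
  rw [mul_DD, eval_map, eval_map, ← aeval_def, ← aeval_def, zero_L hL, sub_zero]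
  congr 2
  funext i
  rcases i with i | i <;> simp [zz]

theorem zz_hom (i : Fin (l + 1) ⊕ Fin (m + 1)) : (zz (𝕜 := 𝕜) i).IsHomogeneous 1 := by
  rcases i with i | i
  · exact isHomogeneous_X _ _
  · have h1 := (isHomogeneous_X (RA 𝕜 m) (Fin.last (l + 1))).mul
      (isHomogeneous_C (Fin (l + 2)) (bb (𝕜 := 𝕜) m i))
    simpa [zz] using h1

theorem qd_hom [Infinite 𝕜] (hf : f.IsHomogeneous 3)
    (hL : ∀ a : Fin (l + 1) → 𝕜, eval (Sum.elim a 0) f = 0) : (qd f).IsHomogeneous 2 := by
  have h1 : (aeval zz f : MvPolynomial (Fin (l + 2)) (RA 𝕜 m)).IsHomogeneous 3 := by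
    have h0 := hf.eval₂ (algebraMap 𝕜 (MvPolynomial (Fin (l + 2)) (RA 𝕜 m))) zz (n := 1) ?_
      (fun i => zz_hom i)
    · rw [aeval_def]
      simpa using h0
    · intro r
      exact isHomogeneous_C _ _
  rw [← mul_qd hL] at h1
  intro d hd
  have h2 := @h1 (Finsupp.single (Fin.last (l + 1)) 1 + d) (by rw [coeff_X_mul]; exact hd)
  rw [map_add] at h2
  have h3 : Finsupp.weight (1 : Fin (l + 2) → ℕ) (Finsupp.single (Fin.last (l + 1)) 1) = 1 := by
    simp [Finsupp.weight_single]
  rw [h3] at h2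
  omega

/-- evaluation at the point `(v, t)` -/
noncomputable def ev (v : Fin (l + 1) → RA 𝕜 m) (t : RA 𝕜 m) :
    MvPolynomial (Fin (l + 2)) (RA 𝕜 m) →+* RA 𝕜 m :=
  eval (Fin.snoc v t : Fin (l + 2) → RA 𝕜 m)

/-- the point `(v, t (y, 1))` -/
noncomputable def xx (v : Fin (l + 1) → RA 𝕜 m) (t : RA 𝕜 m) :
    Fin (l + 1) ⊕ Fin (m + 1) → RA 𝕜 m :=
  Sum.elim v (fun j => t * bb m j)

theorem ev_X (v : Fin (l + 1) → RA 𝕜 m) (t : RA 𝕜 m) :
    ev v t (X (Fin.last (l + 1))) = t := by
  unfold ev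
  rw [eval_X, Fin.snoc_last]

theorem ev_zz (v : Fin (l + 1) → RA 𝕜 m) (t : RA 𝕜 m) (i : Fin (l + 1) ⊕ Fin (m + 1)) :
    ev v t (zz i) = xx v t i := by
  unfold ev zz xx
  rcases i with i | i
  · simp only [Sum.elim_inl, eval_X]
    exact Fin.snoc_castSucc (α := fun _ => RA 𝕜 m) (x := t) (p := v) (i := i)
  · simp only [Sum.elim_inr, map_mul, eval_X, eval_C, Fin.snoc_last]

theorem ev_aeval (v : Fin (l + 1) → RA 𝕜 m) (t : RA 𝕜 m)
    (g : MvPolynomial (Fin (l + 1) ⊕ Fin (m + 1)) 𝕜) :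
    ev v t (aeval zz g) = aeval (xx v t) g := by
  rw [aeval_def, hom_eval₂, aeval_def]
  congr 1
  · ext c
    simp only [RingHom.comp_apply]
    unfold ev
    have : (algebraMap 𝕜 (MvPolynomial (Fin (l + 2)) (RA 𝕜 m))) c =
        C (algebraMap 𝕜 (RA 𝕜 m) c) := rfl
    rw [this, eval_C]
  · funext i
    exact ev_zz v t i

/-- (d1) -/
theorem d1 [Infinite 𝕜] (hL : ∀ a : Fin (l + 1) → 𝕜, eval (Sum.elim a 0) f = 0)
    (i : Fin (l + 1)) :
    aeval zz (pderiv (Sum.inl i) f) = X (Fin.last (l + 1)) * pderiv i.castSucc (qd f) := by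
  have h1 := chain ((pderiv i.castSucc :
    Derivation (RA 𝕜 m) (MvPolynomial (Fin (l + 2)) (RA 𝕜 m)) _).restrictScalars 𝕜) zz f
  rw [← mul_qd hL] at h1
  simp only [Derivation.restrictScalars_apply] at h1
  rw [pderiv_mul, pderiv_X_of_ne (by exact (Fin.castSucc_lt_last i).ne'), zero_mul, zero_add]
    at h1
  rw [h1, Fintype.sum_sum_type]
  have h2 : ∀ j : Fin (l + 1), aeval zz (pderiv (Sum.inl j) f) *
      pderiv i.castSucc (zz (𝕜 := 𝕜) (m := m) (Sum.inl j)) =
      if j = i then aeval zz (pderiv (Sum.inl j) f) else 0 := by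
    intro j
    simp only [zz, Sum.elim_inl]
    by_cases h : j = i
    · subst h
      rw [pderiv_X_self, mul_one, if_pos rfl]
    · rw [if_neg h, pderiv_X_of_ne, mul_zero]
      intro h0
      exact h (Fin.castSucc_injective _ h0)
  have h3 : ∀ j : Fin (m + 1), aeval zz (pderiv (Sum.inr j) f) *
      pderiv i.castSucc (zz (𝕜 := 𝕜) (l := l) (Sum.inr j)) = 0 := by
    intro j
    simp only [zz, Sum.elim_inr]
    rw [pderiv_mul, pderiv_X_of_ne (by exact (Fin.castSucc_lt_last i).ne'), pderiv_C]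
    simp
  simp only [h2, h3, Finset.sum_const_zero, add_zero, Finset.sum_ite_eq', Finset.mem_univ,
    if_true]

/-- (d2) -/
theorem d2 [Infinite 𝕜] (hL : ∀ a : Fin (l + 1) → 𝕜, eval (Sum.elim a 0) f = 0) :
    ∑ j, aeval zz (pderiv (Sum.inr j) f) * C (bb m j) =
      qd f + X (Fin.last (l + 1)) * pderiv (Fin.last (l + 1)) (qd f) := by
  have h1 := chain ((pderiv (Fin.last (l + 1)) :
    Derivation (RA 𝕜 m) (MvPolynomial (Fin (l + 2)) (RA 𝕜 m)) _).restrictScalars 𝕜) zz f
  rw [← mul_qd hL] at h1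
  simp only [Derivation.restrictScalars_apply] at h1
  rw [pderiv_mul, pderiv_X_self, one_mul] at h1
  rw [h1, Fintype.sum_sum_type]
  have h2 : ∀ j : Fin (l + 1), aeval zz (pderiv (Sum.inl j) f) *
      pderiv (Fin.last (l + 1)) (zz (𝕜 := 𝕜) (m := m) (Sum.inl j)) = 0 := by
    intro j
    simp only [zz, Sum.elim_inl]
    rw [pderiv_X_of_ne (by exact (Fin.castSucc_lt_last j).ne), mul_zero]
  have h3 : ∀ j : Fin (m + 1), pderiv (Fin.last (l + 1)) (zz (𝕜 := 𝕜) (l := l) (Sum.inr j)) =
      C (bb m j) := by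
    intro j
    simp only [zz, Sum.elim_inr]
    rw [pderiv_mul, pderiv_X_self, pderiv_C]
    simp
  simp only [h2, h3, Finset.sum_const_zero, zero_add]

theorem sum_pd (k : Fin (l + 1))
    (g : Fin (l + 1) ⊕ Fin (m + 1) → MvPolynomial (Fin (l + 2)) (RA 𝕜 m)) :
    ∑ i, g i * pderiv k.castSucc (zz (𝕜 := 𝕜) i) = g (Sum.inl k) := by
  rw [Fintype.sum_sum_type]
  have h2 : ∀ j : Fin (l + 1), g (Sum.inl j) *
      pderiv k.castSucc (zz (𝕜 := 𝕜) (m := m) (Sum.inl j)) =
      if j = k then g (Sum.inl j) else 0 := by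
    intro j
    simp only [zz, Sum.elim_inl]
    by_cases h : j = k
    · subst h
      rw [pderiv_X_self, mul_one, if_pos rfl]
    · rw [if_neg h, pderiv_X_of_ne, mul_zero]
      intro h0
      exact h (Fin.castSucc_injective _ h0)
  have h3 : ∀ j : Fin (m + 1), g (Sum.inr j) *
      pderiv k.castSucc (zz (𝕜 := 𝕜) (l := l) (Sum.inr j)) = 0 := by
    intro j
    simp only [zz, Sum.elim_inr]
    rw [pderiv_mul, pderiv_X_of_ne (by exact (Fin.castSucc_lt_last k).ne'), pderiv_C]
    simp
  simp only [h2, h3, Finset.sum_const_zero, add_zero, Finset.sum_ite_eq', Finset.mem_univ,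
    if_true]

/-- (d3) -/
theorem d3 [Infinite 𝕜] (hL : ∀ a : Fin (l + 1) → 𝕜, eval (Sum.elim a 0) f = 0)
    (k : Fin (l + 1)) :
    ∑ j, aeval zz (pderiv (Sum.inl k) (pderiv (Sum.inr j) f)) * C (bb m j) =
      pderiv k.castSucc (qd f) + X (Fin.last (l + 1)) *
        pderiv k.castSucc (pderiv (Fin.last (l + 1)) (qd f)) := by
  have h1 := congrArg (pderiv k.castSucc) (d2 hL)
  rw [map_sum, map_add, pderiv_mul, pderiv_X_of_ne (by exact (Fin.castSucc_lt_last k).ne'),
    zero_mul, zero_add] at h1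
  rw [← h1]
  apply Finset.sum_congr rfl
  intro j _
  have h2 := chain ((pderiv k.castSucc :
    Derivation (RA 𝕜 m) (MvPolynomial (Fin (l + 2)) (RA 𝕜 m)) _).restrictScalars 𝕜) zz
    (pderiv (Sum.inr j) f)
  simp only [Derivation.restrictScalars_apply] at h2
  rw [sum_pd k (fun i => aeval zz (pderiv i (pderiv (Sum.inr j) f)))] at h2
  rw [pderiv_mul, pderiv_C, mul_zero, add_zero, h2]

theorem pd_bb (j : Fin m) (i : Fin (m + 1)) :
    pderiv j (bb (𝕜 := 𝕜) m i) = if i = j.castSucc then 1 else 0 := by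
  unfold bb
  refine Fin.lastCases ?_ (fun i => ?_) i
  · rw [Fin.snoc_last, if_neg (Fin.castSucc_lt_last j).ne']
    simp
  · rw [show (Fin.snoc (fun j => X j) 1 : Fin (m + 1) → RA 𝕜 m) i.castSucc = X i from
      Fin.snoc_castSucc (α := fun _ => RA 𝕜 m) (x := 1) (p := fun j => X j) (i := i)]
    by_cases h : i = j
    · subst h
      rw [pderiv_X_self, if_pos rfl]
    · rw [pderiv_X_of_ne h, if_neg]
      intro h0
      exact h (Fin.castSucc_injective _ h0)

theorem bb_last : bb (𝕜 := 𝕜) m (Fin.last m) = 1 := by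
  unfold bb
  rw [Fin.snoc_last]

/-- a point at which all the partial derivatives vanish gives a singular point -/
theorem no_sing [Infinite 𝕜] (hf : Smooth f) (x : Fin (l + 1) ⊕ Fin (m + 1) → RA 𝕜 m)
    (hx : x ≠ 0) (h0 : aeval x f = 0) (h1 : ∀ i, aeval x (pderiv i f) = 0) : False := by
  obtain ⟨i0, hi0⟩ := Function.ne_iff.1 hx
  have h2 : ∃ y : Fin m → 𝕜, eval y (x i0) ≠ 0 := by
    by_contra hcon
    push Not at hcon
    exact hi0 (MvPolynomial.funext (fun y => by rw [hcon y]; simp))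
  obtain ⟨y, hy⟩ := h2
  have h3 : ∀ g : MvPolynomial (Fin (l + 1) ⊕ Fin (m + 1)) 𝕜,
      eval (fun i => eval y (x i)) g = eval y (aeval x g) := by
    intro g
    rw [aeval_def, hom_eval₂]
    have h4 : (eval y).comp (algebraMap 𝕜 (RA 𝕜 m)) = RingHom.id 𝕜 := by
      ext c; simp
    rw [h4, eval₂_id]
  obtain ⟨i, hi⟩ := hf (fun i => eval y (x i)) (fun h => hy (congrFun h i0))
    (by rw [h3, h0, map_zero])
  apply hi
  rw [h3, h1, map_zero]

/-- the section is a nonsingular point of the generic quadric -/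
theorem smooth_point [Infinite 𝕜] (hf : Smooth f)
    (hL : ∀ a : Fin (l + 1) → 𝕜, eval (Sum.elim a 0) f = 0)
    (v : Fin (l + 1) → RA 𝕜 m) (t : RA 𝕜 m) (hne : v ≠ 0 ∨ t ≠ 0)
    (hq : ev v t (qd f) = 0) : ∃ i, ev v t (pderiv i (qd f)) ≠ 0 := by
  by_contra hcon
  push Not at hcon
  have e0 : aeval (xx v t) f = 0 := by
    rw [← ev_aeval, ← mul_qd hL, map_mul, hq, mul_zero]
  have e1 : ∀ i, aeval (xx v t) (pderiv (Sum.inl i) f) = 0 := by
    intro i
    rw [← ev_aeval, d1 hL, map_mul, hcon, mul_zero]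
  have evC : ∀ j, ev v t (C (bb m j)) = bb m j := by
    intro j
    unfold ev
    rw [eval_C]
  have e2 : ∑ j, aeval (xx v t) (pderiv (Sum.inr j) f) * bb m j = 0 := by
    have h := congrArg (ev v t) (d2 hL)
    rw [map_sum, map_add, map_mul, hcon, mul_zero, add_zero, hq] at h
    simpa only [map_mul, ev_aeval, evC] using h
  have hne' : xx v t ≠ 0 := by
    intro h
    rcases hne with h1 | h1
    · apply h1
      funext i
      exact congrFun h (Sum.inl i)
    · apply h1
      have := congrFun h (Sum.inr (Fin.last m))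
      simpa [xx, bb_last] using this
  -- it is enough to treat the first `m` coordinates of `b`
  have e3 : (∀ j : Fin m, aeval (xx v t) (pderiv (Sum.inr j.castSucc) f) = 0) → False := by
    intro h
    apply no_sing hf (xx v t) hne' e0
    rintro (i | i)
    · exact e1 i
    · refine Fin.lastCases ?_ (fun i => h i) i
      rw [Fin.sum_univ_castSucc, bb_last, mul_one, Finset.sum_eq_zero, zero_add] at e2
      · exact e2
      · intro k _
        rw [h k, zero_mul]
  apply e3
  intro j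
  by_cases ht : t = 0
  · -- derivative of `e2`
    have hx : ∀ k, pderiv j (xx v t (Sum.inr k)) = 0 := by
      intro k
      simp [xx, ht]
    have h := congrArg (pderiv j) e2
    rw [map_sum, map_zero] at h
    have h2 : ∀ i, pderiv j (aeval (xx v t) (pderiv (Sum.inr i) f) * bb m i) =
        (∑ k, aeval (xx v t) (pderiv (Sum.inl k) (pderiv (Sum.inr i) f)) *
          pderiv j (v k)) * bb m i +
        (if i = j.castSucc then aeval (xx v t) (pderiv (Sum.inr i) f) else 0) := by
      intro i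
      rw [pderiv_mul, pd_bb, chain (pderiv j) (xx v t) (pderiv (Sum.inr i) f),
        Fintype.sum_sum_type]
      simp only [hx, mul_zero, Finset.sum_const_zero, add_zero]
      congr 1
      split_ifs <;> simp
    simp only [h2] at h
    rw [Finset.sum_add_distrib, Finset.sum_ite_eq', if_pos (Finset.mem_univ _)] at h
    have h3 : ∑ i, (∑ k, aeval (xx v t) (pderiv (Sum.inl k) (pderiv (Sum.inr i) f)) *
          pderiv j (v k)) * bb m i = 0 := by
      have h4 : ∀ k, ∑ i, aeval (xx v t) (pderiv (Sum.inl k) (pderiv (Sum.inr i) f)) * bb m i =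
          0 := by
        intro k
        have h5 := congrArg (ev v t) (d3 hL k)
        have hX : ev v t (X (Fin.last (l + 1))) = 0 := by rw [ev_X]; exact ht
        rw [map_sum, map_add, map_mul, hcon, hX, zero_mul, add_zero] at h5
        simpa only [map_mul, ev_aeval, evC] using h5
      simp only [Finset.sum_mul]
      rw [Finset.sum_comm]
      apply Finset.sum_eq_zero
      intro k _
      have h6 : ∑ i, aeval (xx v t) (pderiv (Sum.inl k) (pderiv (Sum.inr i) f)) *
          pderiv j (v k) * bb m i =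
          (∑ i, aeval (xx v t) (pderiv (Sum.inl k) (pderiv (Sum.inr i) f)) * bb m i) *
            pderiv j (v k) := by
        rw [Finset.sum_mul]
        apply Finset.sum_congr rfl
        intro i _
        ring
      rw [h6, h4, zero_mul]
    rw [h3, zero_add] at h
    exact h
  · have h := chain (pderiv j) (xx v t) f
    rw [e0, map_zero, Fintype.sum_sum_type] at h
    simp only [e1, zero_mul, Finset.sum_const_zero, zero_add] at h
    have h2 : ∀ i, aeval (xx v t) (pderiv (Sum.inr i) f) * pderiv j (xx v t (Sum.inr i)) =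
        (aeval (xx v t) (pderiv (Sum.inr i) f) * bb m i) * pderiv j t +
        (if i = j.castSucc then aeval (xx v t) (pderiv (Sum.inr i) f) * t else 0) := by
      intro i
      simp only [xx, Sum.elim_inr]
      rw [pderiv_mul, pd_bb]
      split_ifs <;> ring
    simp only [h2] at h
    rw [Finset.sum_add_distrib, ← Finset.sum_mul, e2, zero_mul, zero_add, Finset.sum_ite_eq',
      if_pos (Finset.mem_univ _)] at h
    exact (mul_eq_zero.1 h.symm).resolve_right ht

end quadric

end Pool.Agent.CUB.H64
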