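import Mathlib

/-!
# Divided differences of polynomials and the chain rule

`DD f U c W` is the value of `(f(U + c W) - f(U)) / c`.
-/

set_option autoImplicit false

namespace Pool.Agent.CUB.H64

open MvPolynomial

section DD

variable {σ A B : Type*} [CommRing A] [CommRing B]

/-- `f(U + Z W)` as a polynomial in `Z` -/
noncomputable def ln (f : MvPolynomial σ A) (U W : σ → A) : Polynomial A :=
  eval₂ Polynomial.C (fun i => Polynomial.C (U i) + Polynomial.X * Polynomial.C (W i)) f

/-- the divided difference `(f(U + c W) - f(U)) / c` -/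
noncomputable def DD (f : MvPolynomial σ A) (U : σ → A) (c : A) (W : σ → A) : A :=
  (Polynomial.divX (ln f U W)).eval c

theorem eval_ln (f : MvPolynomial σ A) (U W : σ → A) (c : A) :
    (ln f U W).eval c = eval (fun i => U i + c * W i) f := by
  unfold ln
  rw [← Polynomial.coe_evalRingHom, hom_eval₂]
  have h1 : (Polynomial.evalRingHom c).comp Polynomial.C = RingHom.id A := by
    ext a; simp
  rw [h1, eval₂_id]
  congr 2
  funext i
  rw [Polynomial.coe_evalRingHom, Polynomial.eval_add, Polynomial.eval_mul, Polynomial.eval_C,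
    Polynomial.eval_C, Polynomial.eval_X]

/-- `c DD f U c W = f(U + c W) - f(U)` -/
theorem mul_DD (f : MvPolynomial σ A) (U W : σ → A) (c : A) :
    c * DD f U c W = eval (fun i => U i + c * W i) f - eval U f := by
  have h1 := congrArg (Polynomial.eval c) (Polynomial.divX_mul_X_add (ln f U W))
  rw [Polynomial.eval_add, Polynomial.eval_mul, Polynomial.eval_X, Polynomial.eval_C,
    eval_ln] at h1
  have h2 : (ln f U W).coeff 0 = eval U f := by
    rw [Polynomial.coeff_zero_eq_eval_zero, eval_ln]
    congr 2
    funext i
    simp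
  rw [h2] at h1
  rw [← h1]
  unfold DD
  ring

theorem map_ln (ψ : A →+* B) (f : MvPolynomial σ A) (U W : σ → A) :
    (ln f U W).map ψ = ln (map ψ f) (fun i => ψ (U i)) (fun i => ψ (W i)) := by
  unfold ln
  rw [← Polynomial.coe_mapRingHom, hom_eval₂, eval₂_map]
  congr 1
  · ext a; simp
  · funext i
    simp

theorem divX_map (ψ : A →+* B) (p : Polynomial A) : (p.map ψ).divX = p.divX.map ψ := by
  ext n
  simp [Polynomial.coeff_divX]

theorem map_DD (ψ : A →+* B) (f : MvPolynomial σ A) (U W : σ → A) (c : A) :
    ψ (DD f U c W) = DD (map ψ f) (fun i => ψ (U i)) (ψ c) (fun i => ψ (W i)) := by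
  unfold DD
  rw [← map_ln, divX_map, Polynomial.eval_map, Polynomial.eval₂_at_apply]

end DD

section chain

variable {𝕜 ι B : Type*} [CommRing 𝕜] [CommRing B] [Algebra 𝕜 B] [Fintype ι]

/-- the chain rule -/
theorem chain (D : Derivation 𝕜 B B) (z : ι → B) (f : MvPolynomial ι 𝕜) :
    D (aeval z f) = ∑ i, aeval z (pderiv i f) * D (z i) := by
  classical
  induction f using MvPolynomial.induction_on with
  | C a => simp
  | add p q hp hq =>
    simp only [map_add, hp, hq, add_mul, Finset.sum_add_distrib]
  | mul_X p j hp =>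
    simp only [map_mul, aeval_X, Derivation.leibniz, hp, smul_eq_mul, map_add, pderiv_X, add_mul,
      Finset.sum_add_distrib]
    have h1 : ∀ x, aeval z p * aeval z (Pi.single (M := fun _ => MvPolynomial ι 𝕜) x 1 j) * D (z x) =
        if x = j then aeval z p * D (z j) else 0 := by
      intro x
      by_cases h : x = j
      · subst h; simp
      · rw [if_neg h, Pi.single_eq_of_ne (Ne.symm h)]; simp
    simp only [h1, Finset.sum_ite_eq', Finset.mem_univ, if_true, Finset.mul_sum]
    congr 1
    apply Finset.sum_congr rfl
    intro x _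
    ring

end chain

end Pool.Agent.CUB.H64
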