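import Pool.Agent.Helper64_CUB.Lin
import Pool.Agent.Helper88_CUB.TR

/-!
# Cubic hypersurfaces over a field: a linear subspace with a section of its quadric bundle
-/

set_option autoImplicit false
set_option linter.unusedSectionVars false

namespace Pool.Agent.CUB.H64

open MvPolynomial

variable {𝕜 : Type} [Field 𝕜]

/-- change of the direction of a divided difference -/
theorem DD_change [Infinite 𝕜] {l m : ℕ} {f : MvPolynomial (Fin (l + 1) ⊕ Fin (m + 1)) 𝕜}
    (hL : ∀ a : Fin (l + 1) → 𝕜, eval (Sum.elim a 0) f = 0)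
    {A : Type} [CommRing A] [IsDomain A] [Algebra 𝕜 A] (U a : Fin (l + 1) → A)
    (b : Fin (m + 1) → A) (c β : A) :
    β * DD (map (algebraMap 𝕜 A) f) (Sum.elim (fun i => U i + c * a i) 0) (c * β)
        (Sum.elim 0 b) =
      DD (map (algebraMap 𝕜 A) f) (Sum.elim U 0) c (Sum.elim a (fun j => β * b j)) := by
  have key : Polynomial.C β * DD (map (algebraMap 𝕜 (Polynomial A)) f)
        (Sum.elim (fun i => Polynomial.C (U i) + Polynomial.X * Polynomial.C (a i)) 0)
        (Polynomial.X * Polynomial.C β) (Sum.elim 0 (fun j => Polynomial.C (b j))) =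
      DD (map (algebraMap 𝕜 (Polynomial A)) f) (Sum.elim (fun i => Polynomial.C (U i)) 0)
        Polynomial.X (Sum.elim (fun i => Polynomial.C (a i))
          (fun j => Polynomial.C β * Polynomial.C (b j))) := by
    apply mul_left_cancel₀ (Polynomial.X_ne_zero (R := A))
    rw [mul_DD, ← mul_assoc, mul_DD, eval_map, eval_map, eval_map, eval_map, ← aeval_def,
      ← aeval_def, ← aeval_def, ← aeval_def, zero_L hL, zero_L hL]
    congr 3
    funext i
    rcases i with i | i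
    · simp
    · simp only [Sum.elim_inr, Pi.zero_apply, zero_add]
      ring
  have h1 := congrArg (Polynomial.evalRingHom c) key
  have h2 : map (Polynomial.evalRingHom c) (map (algebraMap 𝕜 (Polynomial A)) f) =
      map (algebraMap 𝕜 A) f := by
    rw [map_map]
    have h3 : (Polynomial.evalRingHom c).comp (algebraMap 𝕜 (Polynomial A)) =
        algebraMap 𝕜 A := by
      ext x
      simp
    rw [h3]
  rw [map_mul, map_DD, map_DD, h2] at h1
  have e1 : (fun i => (Polynomial.evalRingHom c) ((Sum.elim (fun i => Polynomial.C (U i) +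
      Polynomial.X * Polynomial.C (a i)) 0 : Fin (l + 1) ⊕ Fin (m + 1) → Polynomial A) i)) =
      Sum.elim (fun i => U i + c * a i) 0 := by
    funext i
    rcases i with i | i
    · simp only [Sum.elim_inl, Polynomial.coe_evalRingHom, Polynomial.eval_add,
        Polynomial.eval_mul, Polynomial.eval_C, Polynomial.eval_X]
    · simp
  have e2 : (fun i => (Polynomial.evalRingHom c) ((Sum.elim 0 (fun j => Polynomial.C (b j)) :
      Fin (l + 1) ⊕ Fin (m + 1) → Polynomial A) i)) = (Sum.elim 0 b :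
      Fin (l + 1) ⊕ Fin (m + 1) → A) := by
    funext i
    rcases i with i | i <;> simp
  have e3 : (fun i => (Polynomial.evalRingHom c) ((Sum.elim (fun i => Polynomial.C (U i)) 0 :
      Fin (l + 1) ⊕ Fin (m + 1) → Polynomial A) i)) = Sum.elim U 0 := by
    funext i
    rcases i with i | i <;> simp
  have e4 : (fun i => (Polynomial.evalRingHom c) ((Sum.elim (fun i => Polynomial.C (a i))
      (fun j => Polynomial.C β * Polynomial.C (b j)) :
      Fin (l + 1) ⊕ Fin (m + 1) → Polynomial A) i)) = Sum.elim a (fun j => β * b j) := by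
    funext i
    rcases i with i | i <;> simp
  have e5 : (Polynomial.evalRingHom c) (Polynomial.X * Polynomial.C β) = c * β := by
    rw [Polynomial.coe_evalRingHom, Polynomial.eval_mul, Polynomial.eval_X, Polynomial.eval_C]
  have e6 : (Polynomial.evalRingHom c) (Polynomial.C β) = β := by simp
  have e7 : (Polynomial.evalRingHom c) Polynomial.X = c := by simp
  rw [e1, e2, e3, e4, e5, e6, e7] at h1
  exact h1

/-- coordinates adapted to a linear subspace -/
theorem coords {n : ℕ} (L : Submodule 𝕜 (Fin (n + 2) → 𝕜)) (h0 : L ≠ ⊥) (h1 : L ≠ ⊤) :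
    ∃ (l m : ℕ) (M : Matrix (Fin (n + 2)) (Fin (l + 1) ⊕ Fin (m + 1)) 𝕜)
      (N : Matrix (Fin (l + 1) ⊕ Fin (m + 1)) (Fin (n + 2)) 𝕜),
      l + m = n ∧ M * N = 1 ∧ N * M = 1 ∧ (∀ a : Fin (l + 1) → 𝕜, mv M (Sum.elim a 0) ∈ L) ∧
      (∀ x ∈ L, ∀ j, mv N x (Sum.inr j) = 0) := by
  obtain ⟨L', hc⟩ := L.exists_isCompl
  have hL0 : Module.finrank 𝕜 L ≠ 0 := by
    rw [Ne, Submodule.finrank_eq_zero]
    exact h0
  have hL'0 : Module.finrank 𝕜 L' ≠ 0 := by
    rw [Ne, Submodule.finrank_eq_zero]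
    intro h
    apply h1
    have := hc.codisjoint.eq_top
    rwa [h, sup_bot_eq] at this
  obtain ⟨l, hl⟩ := Nat.exists_eq_succ_of_ne_zero hL0
  obtain ⟨m, hm⟩ := Nat.exists_eq_succ_of_ne_zero hL'0
  have hsum := Submodule.finrank_add_eq_of_isCompl hc
  rw [hl, hm, Module.finrank_fintype_fun_eq_card, Fintype.card_fin] at hsum
  set b : Module.Basis (Fin (l + 1) ⊕ Fin (m + 1)) 𝕜 (Fin (n + 2) → 𝕜) :=
    ((Module.finBasisOfFinrankEq 𝕜 L hl).prod (Module.finBasisOfFinrankEq 𝕜 L' hm)).map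
      (Submodule.prodEquivOfIsCompl L L' hc) with hb
  have hmem : ∀ j, b (Sum.inl j) ∈ L := by
    intro j
    simp [hb]
  have hrepr : ∀ x ∈ L, ∀ j, b.repr x (Sum.inr j) = 0 := by
    intro x hx j
    have h5 : (Submodule.prodEquivOfIsCompl L L' hc).symm x = (⟨x, hx⟩, 0) := by
      rw [LinearEquiv.symm_apply_eq]
      simp
    simp [hb, h5]
  refine ⟨l, m, (Pi.basisFun 𝕜 (Fin (n + 2))).toMatrix b, b.toMatrix (Pi.basisFun 𝕜 (Fin (n + 2))),
    by omega, Module.Basis.toMatrix_mul_toMatrix_flip _ _,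
    Module.Basis.toMatrix_mul_toMatrix_flip _ _, ?_, ?_⟩
  · intro a
    have h3 : mv ((Pi.basisFun 𝕜 (Fin (n + 2))).toMatrix b) (Sum.elim a 0) =
        ∑ j, a j • b (Sum.inl j) := by
      funext i
      rw [mv_apply, Fintype.sum_sum_type, Finset.sum_apply]
      simp only [Sum.elim_inl, Sum.elim_inr, Pi.zero_apply, mul_zero, Finset.sum_const_zero,
        add_zero, Pi.smul_apply, smul_eq_mul]
      apply Finset.sum_congr rfl
      intro j _
      rw [mul_comm]
      simp [Module.Basis.toMatrix_apply]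
    rw [h3]
    exact Submodule.sum_mem _ (fun j _ => L.smul_mem _ (hmem j))
  · intro x hx j
    have h4 := Module.Basis.toMatrix_mulVec_repr (Pi.basisFun 𝕜 (Fin (n + 2))) b x
    have h5 : mv (b.toMatrix (Pi.basisFun 𝕜 (Fin (n + 2)))) x = b.repr x := by
      rw [← h4]
      unfold mv
      rfl
    rw [h5]
    exact hrepr x hx j

/-- the hypersurface `f = 0` is rational: it has a birational parametrisation `x` -/
def Rational (𝕜 : Type) [Field 𝕜] (n : ℕ) (f : MvPolynomial (Fin (n + 2)) 𝕜) : Prop :=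
  ∃ x : Fin (n + 2) → FractionRing (MvPolynomial (Fin n) 𝕜),
    x ≠ 0 ∧ aeval x f = 0 ∧ IntermediateField.adjoin 𝕜 {z | ∃ i j, z = x i / x j} = ⊤

/-- a linear subspace with a rational section of its quadric bundle (weak form) -/
def SectW (n : ℕ) (f : MvPolynomial (Fin (n + 2)) 𝕜) : Prop :=
  ∃ L : Submodule 𝕜 (Fin (n + 2) → 𝕜), L ≠ ⊥ ∧ (∀ x ∈ L, eval x f = 0) ∧
    ∃ (u : Fin (n + 2) → MvPolynomial (Fin (n + 2)) 𝕜) (c : MvPolynomial (Fin (n + 2)) 𝕜),
      (u ≠ 0 ∨ c ≠ 0) ∧ (∀ d, (fun i => coeff d (u i)) ∈ L) ∧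
      DD (map (algebraMap 𝕜 (MvPolynomial (Fin (n + 2)) 𝕜)) f) u c X = 0

theorem adjoin_ratio {Ω : Type} [Field Ω] [Algebra 𝕜 Ω] {κ ι : Type} [Fintype κ] [Fintype ι]
    [DecidableEq ι] [DecidableEq κ] {M : Matrix κ ι 𝕜} {N : Matrix ι κ 𝕜} (hNM : N * M = 1)
    {x : ι → Ω} (hx : x ≠ 0)
    (h : IntermediateField.adjoin 𝕜 {z | ∃ i j, z = x i / x j} = ⊤) :
    mv M x ≠ 0 ∧
      IntermediateField.adjoin 𝕜 {z | ∃ i j, z = mv M x i / mv M x j} = ⊤ := by
  have hN : mv N (mv M x) = x := by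
    rw [mv_mv, hNM, mv_one]
  have h0 : mv M x ≠ 0 := by
    intro h1
    apply hx
    rw [← hN, h1]
    funext i
    simp [mv_apply]
  refine ⟨h0, ?_⟩
  obtain ⟨k0, hk0⟩ := Function.ne_iff.1 h0
  rw [Pi.zero_apply] at hk0
  set S := IntermediateField.adjoin 𝕜 {z | ∃ i j, z = mv M x i / mv M x j} with hS
  have hr : ∀ i, mv M x i / mv M x k0 ∈ S := fun i =>
    IntermediateField.subset_adjoin _ _ ⟨i, k0, rfl⟩
  have hr2 : ∀ i, x i / mv M x k0 ∈ S := by
    intro i
    have h1 : x i = ∑ j, algebraMap 𝕜 Ω (N i j) * mv M x j := by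
      conv_lhs => rw [← hN]
      rfl
    rw [h1, Finset.sum_div]
    apply S.sum_mem
    intro j _
    rw [mul_div_assoc]
    exact S.mul_mem (S.algebraMap_mem _) (hr j)
  rw [eq_top_iff, ← h, IntermediateField.adjoin_le_iff]
  rintro z ⟨i, j, rfl⟩
  have h1 : x i / x j = (x i / mv M x k0) / (x j / mv M x k0) := by
    field_simp
  rw [h1]
  exact S.div_mem (hr2 i) (hr2 j)

theorem adjoin_equiv {Ω Ω' : Type} [Field Ω] [Algebra 𝕜 Ω] [Field Ω'] [Algebra 𝕜 Ω']
    (e : Ω ≃ₐ[𝕜] Ω') {κ : Type} {x : κ → Ω}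
    (h : IntermediateField.adjoin 𝕜 {z | ∃ i j, z = x i / x j} = ⊤) :
    IntermediateField.adjoin 𝕜 {z | ∃ i j, z = e (x i) / e (x j)} = ⊤ := by
  have h1 := IntermediateField.adjoin_map 𝕜 {z | ∃ i j, z = x i / x j} e.toAlgHom
  rw [h] at h1
  have h2 : (e.toAlgHom '' {z | ∃ i j, z = x i / x j}) = {z | ∃ i j, z = e (x i) / e (x j)} := by
    ext z
    constructor
    · rintro ⟨y, ⟨i, j, rfl⟩, rfl⟩
      exact ⟨i, j, by simp⟩
    · rintro ⟨i, j, rfl⟩
      exact ⟨x i / x j, ⟨i, j, rfl⟩, by simp⟩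
  rw [h2] at h1
  rw [← h1, eq_top_iff]
  intro z _
  exact ⟨e.symm z, IntermediateField.mem_top, by simp⟩

theorem smooth_L {n : ℕ} [Infinite 𝕜] {f : MvPolynomial (Fin (n + 2)) 𝕜} (hf : Smooth f)
    {L : Submodule 𝕜 (Fin (n + 2) → 𝕜)} (hL : ∀ x ∈ L, eval x f = 0) : L ≠ ⊤ := by
  intro h
  have h0 : f = 0 := by
    apply MvPolynomial.funext
    intro x
    rw [map_zero]
    exact hL x (by rw [h]; trivial)
  obtain ⟨i, hi⟩ := hf (fun _ => 1) (fun h1 => by
    have := congrFun h1 0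
    simp at this) (by rw [h0, map_zero])
  apply hi
  rw [h0, map_zero, map_zero]

/-- adapted coordinates and the section of the quadric bundle over the affine space -/
theorem sect_core [Infinite 𝕜] {n : ℕ} {f : MvPolynomial (Fin (n + 2)) 𝕜}
    (hf : Smooth f) (h : SectW n f) :
    ∃ (L : Submodule 𝕜 (Fin (n + 2) → 𝕜)) (l m : ℕ)
      (M : Matrix (Fin (n + 2)) (Fin (l + 1) ⊕ Fin (m + 1)) 𝕜)
      (N : Matrix (Fin (l + 1) ⊕ Fin (m + 1)) (Fin (n + 2)) 𝕜)
      (v : Fin (l + 1) → RA 𝕜 m) (t : RA 𝕜 m),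
      L ≠ ⊥ ∧ (∀ x ∈ L, eval x f = 0) ∧ l + m = n ∧ M * N = 1 ∧ N * M = 1 ∧
      (∀ a : Fin (l + 1) → 𝕜, mv M (Sum.elim a 0) ∈ L) ∧ (v ≠ 0 ∨ t ≠ 0) ∧
      ev v t (qd (lin M f)) = 0 := by
  obtain ⟨L, hL0, hL, u, c, huc, hu, hD⟩ := h
  obtain ⟨l, m, M, N, hlm, hMN, hNM, hML, hNL⟩ := coords L hL0 (smooth_L hf hL)
  set f' := lin M f with hf'
  have hL' : ∀ a : Fin (l + 1) → 𝕜, eval (Sum.elim a 0) f' = 0 := by
    intro a
    rw [hf', eval_lin]
    exact hL _ (hML a)
  -- the choice of the direction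
  obtain ⟨p, hp0, hp⟩ : ∃ p : MvPolynomial (Fin (n + 2)) 𝕜, p ≠ 0 ∧
      (p = c ∨ (c = 0 ∧ ∃ i, p = u i)) := by
    by_cases hc : c = 0
    · rcases huc with h1 | h1
      · obtain ⟨i, hi⟩ := Function.ne_iff.1 h1
        exact ⟨u i, hi, Or.inr ⟨hc, i, rfl⟩⟩
      · exact absurd hc h1
    · exact ⟨c, hc, Or.inl rfl⟩
  set last : MvPolynomial (Fin (n + 2)) 𝕜 := mv N X (Sum.inr (Fin.last m)) with hlast
  have hevN : ∀ (T : Fin (n + 2) → 𝕜) (i : Fin (l + 1) ⊕ Fin (m + 1)),
      eval T (mv N X i) = mv N T i := by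
    intro T i
    rw [mv_apply, map_sum, mv_apply]
    apply Finset.sum_congr rfl
    intro j _
    have : algebraMap 𝕜 (MvPolynomial (Fin (n + 2)) 𝕜) (N i j) = C (N i j) := rfl
    rw [this, map_mul, eval_C, eval_X]
    rfl
  have hMNx : ∀ x : Fin (n + 2) → 𝕜, mv M (mv N x) = x := by
    intro x
    rw [mv_mv, hMN, mv_one]
  have hNMx : ∀ x : Fin (l + 1) ⊕ Fin (m + 1) → 𝕜, mv N (mv M x) = x := by
    intro x
    rw [mv_mv, hNM, mv_one]
  have hlast0 : last ≠ 0 := by
    intro h0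
    have h1 := hevN (mv M (Pi.single (Sum.inr (Fin.last m)) 1)) (Sum.inr (Fin.last m))
    rw [hNMx, ← hlast, h0, map_zero, Pi.single_eq_same] at h1
    exact zero_ne_one h1
  obtain ⟨T, hT⟩ : ∃ T, eval T (p * last) ≠ 0 := by
    by_contra hcon
    push Not at hcon
    exact mul_ne_zero hp0 hlast0 (MvPolynomial.funext (fun y => by rw [hcon y, map_zero]))
  rw [map_mul] at hT
  have hpT := left_ne_zero_of_mul hT
  have hβ : mv N T (Sum.inr (Fin.last m)) ≠ 0 := by
    rw [← hevN]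
    exact right_ne_zero_of_mul hT
  set β := mv N T (Sum.inr (Fin.last m)) with hβdef
  set a : Fin (l + 1) → RA 𝕜 m := fun i => C (mv N T (Sum.inl i)) with ha
  set τ : Fin (l + 1) ⊕ Fin (m + 1) → RA 𝕜 m := Sum.elim a (fun j => C β * bb m j) with hτ
  set θ : MvPolynomial (Fin (n + 2)) 𝕜 →ₐ[𝕜] RA 𝕜 m := aeval (mv M τ) with hθ
  -- `θ p` is not zero
  have hθp : ∀ g : MvPolynomial (Fin (n + 2)) 𝕜,
      eval (fun j : Fin m => mv N T (Sum.inr j.castSucc) / β) (θ g) = eval T g := by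
    intro g
    rw [hθ, aeval_def, hom_eval₂]
    have h4 : (eval (fun j : Fin m => mv N T (Sum.inr j.castSucc) / β)).comp
        (algebraMap 𝕜 (RA 𝕜 m)) = RingHom.id 𝕜 := by
      ext c; simp
    rw [h4, eval₂_id]
    congr 2
    funext i
    have h5 : eval (fun j : Fin m => mv N T (Sum.inr j.castSucc) / β) (mv M τ i) =
        mv M (mv N T) i := by
      rw [mv_apply, map_sum, mv_apply]
      apply Finset.sum_congr rfl
      intro j _
      have h6 : algebraMap 𝕜 (RA 𝕜 m) (M i j) = C (M i j) := rfl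
      rw [h6, map_mul, eval_C]
      have h7 : eval (fun j : Fin m => mv N T (Sum.inr j.castSucc) / β) (τ j) = mv N T j := by
        rcases j with j | j
        · simp [hτ, ha]
        · simp only [hτ, Sum.elim_inr, map_mul, eval_C]
          refine Fin.lastCases ?_ (fun k => ?_) j
          · rw [bb_last, map_one, mul_one]
          · rw [show bb (𝕜 := 𝕜) m k.castSucc = X k from
              Fin.snoc_castSucc (α := fun _ => RA 𝕜 m) (x := 1) (p := fun j => X j) (i := k),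
              eval_X]
            field_simp
      rw [h7]
      rfl
    rw [h5, hMNx]
  have hθne : ∀ g, eval T g ≠ 0 → θ g ≠ 0 := by
    intro g hg h0
    apply hg
    rw [← hθp, h0, map_zero]
  -- the section in the new coordinates
  set U : Fin (l + 1) ⊕ Fin (m + 1) → RA 𝕜 m := mv N (fun i => θ (u i)) with hU
  have hUr : ∀ j, U (Sum.inr j) = 0 := by
    intro j
    rw [hU, ← mv_hom]
    have h1 : mv N u (Sum.inr j) = 0 := by
      ext d
      rw [mv_apply, coeff_sum, coeff_zero]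
      have h2 := hNL _ (hu d) j
      rw [mv_apply] at h2
      rw [← h2]
      apply Finset.sum_congr rfl
      intro i _
      have : algebraMap 𝕜 (MvPolynomial (Fin (n + 2)) 𝕜) (N (Sum.inr j) i) =
        C (N (Sum.inr j) i) := rfl
      rw [this, coeff_C_mul]
      rfl
    rw [h1, map_zero]
  have hMU : mv M U = fun i => θ (u i) := by
    rw [hU, mv_mv, hMN, mv_one]
  have hU' : U = Sum.elim (fun i => U (Sum.inl i)) 0 := by
    funext i
    rcases i with i | i
    · rfl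
    · exact hUr i
  have hD2 : DD (map (algebraMap 𝕜 (RA 𝕜 m)) f') U (θ c) τ = 0 := by
    rw [hf', DD_lin, hMU]
    have h1 := congrArg (θ : MvPolynomial (Fin (n + 2)) 𝕜 →+* RA 𝕜 m) hD
    rw [map_zero, map_DD, map_map] at h1
    have h2 : (θ : MvPolynomial (Fin (n + 2)) 𝕜 →+* RA 𝕜 m).comp
        (algebraMap 𝕜 (MvPolynomial (Fin (n + 2)) 𝕜)) = algebraMap 𝕜 (RA 𝕜 m) := by
      ext x
      simp
    rw [h2] at h1
    have h3 : (fun i => (θ : MvPolynomial (Fin (n + 2)) 𝕜 →+* RA 𝕜 m) (X i)) = mv M τ := by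
      funext i
      simp [hθ]
    rw [h3] at h1
    exact h1
  have hD3 := DD_change hL' (fun i => U (Sum.inl i)) a (bb m) (θ c) (C β)
  rw [← hU', ← hτ, hD2] at hD3
  have hCβ : (C β : RA 𝕜 m) ≠ 0 := by
    intro h0
    exact hβ (C_injective _ _ (h0.trans (map_zero _).symm))
  have hD4 := (mul_eq_zero.1 hD3).resolve_left hCβ
  set v : Fin (l + 1) → RA 𝕜 m := fun i => U (Sum.inl i) + θ c * a i with hv
  have hq : ev v (θ c * C β) (qd f') = 0 := by
    unfold qd ev
    rw [map_DD, map_map]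
    rw [← hD4]
    have e0 : (eval (Fin.snoc v (θ c * C β) : Fin (l + 2) → RA 𝕜 m)).comp
        (algebraMap 𝕜 (MvPolynomial (Fin (l + 2)) (RA 𝕜 m))) = algebraMap 𝕜 (RA 𝕜 m) := by
      ext1 x
      have h4 : (algebraMap 𝕜 (MvPolynomial (Fin (l + 2)) (RA 𝕜 m))) x =
        C (algebraMap 𝕜 (RA 𝕜 m) x) := rfl
      rw [RingHom.comp_apply, h4, eval_C]
    have e1 : (fun i => (eval (Fin.snoc v (θ c * C β) : Fin (l + 2) → RA 𝕜 m))
        ((Sum.elim (fun i => X i.castSucc) 0 :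
          Fin (l + 1) ⊕ Fin (m + 1) → MvPolynomial (Fin (l + 2)) (RA 𝕜 m)) i)) =
        (Sum.elim v 0 : Fin (l + 1) ⊕ Fin (m + 1) → RA 𝕜 m) := by
      funext i
      rcases i with i | i
      · simp only [Sum.elim_inl, eval_X]
        exact Fin.snoc_castSucc (α := fun _ => RA 𝕜 m) (x := θ c * C β) (p := v) (i := i)
      · simp
    have e2 : (fun i => (eval (Fin.snoc v (θ c * C β) : Fin (l + 2) → RA 𝕜 m))
        ((Sum.elim 0 (fun j => C (bb m j)) :
          Fin (l + 1) ⊕ Fin (m + 1) → MvPolynomial (Fin (l + 2)) (RA 𝕜 m)) i)) =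
        (Sum.elim 0 (bb m) : Fin (l + 1) ⊕ Fin (m + 1) → RA 𝕜 m) := by
      funext i
      rcases i with i | i <;> simp
    rw [e0, e1, e2, eval_X, Fin.snoc_last]
  have hne : v ≠ 0 ∨ θ c * C β ≠ 0 := by
    rcases hp with hp | ⟨hc, i, hp⟩
    · right
      apply mul_ne_zero _ hCβ
      apply hθne
      rw [← hp]
      exact hpT
    · left
      intro hv0
      have h1 : U = 0 := by
        rw [hU']
        funext i
        rcases i with i | i
        · have h2 := congrFun hv0 i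
          simpa [hv, hc] using h2
        · rfl
      have h2 : θ (u i) = 0 := by
        rw [← congrFun hMU i, h1]
        simp [mv_apply]
      rw [← hp] at h2
      exact hθne p hpT h2
  exact ⟨L, l, m, M, N, v, θ c * C β, hL0, hL, hlm, hMN, hNM, hML, hne, hq⟩

/-- a nonsingular cubic hypersurface with a linear subspace whose quadric bundle has a rational
section is rational -/
theorem field_thm [Infinite 𝕜] {n : ℕ} {f : MvPolynomial (Fin (n + 2)) 𝕜}
    (h3 : f.IsHomogeneous 3) (hf : Smooth f) (h : SectW n f) : Rational 𝕜 n f := by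
  obtain ⟨L, l, m, M, N, v, t, hL0, hL, hlm, hMN, hNM, hML, hne, hq⟩ := sect_core hf h
  have hL' : ∀ a : Fin (l + 1) → 𝕜, eval (Sum.elim a 0) (lin M f) = 0 := by
    intro a
    rw [eval_lin]
    exact hL _ (hML a)
  obtain ⟨x, hx0, hxf, hgen⟩ := core (lin_hom M h3) (lin_smooth hMN hNM hf) hL' v t hne hq
  obtain ⟨hx1, hgen1⟩ := adjoin_ratio (M := M) hNM hx0 hgen
  subst hlm
  obtain ⟨e, _⟩ := H88.tr 𝕜 m l
  refine ⟨fun i => e (mv M x i), ?_, ?_, adjoin_equiv e hgen1⟩
  · intro h0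
    apply hx1
    funext i
    have := congrFun h0 i
    simpa using this
  · have h1 : aeval (fun i => e (mv M x i)) f = e (aeval (mv M x) f) := by
      have := comp_aeval_apply (R := 𝕜) (f := mv M x) (φ := e.toAlgHom) f
      exact this.symm
    rw [h1, ← aeval_lin, hxf, map_zero]

end Pool.Agent.CUB.H64
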