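import Pool.Agent.Helper64_CUB.Core
import Pool.Agent.Helper88_CUB.QP2

/-!
# The hypersurface is rational if the quadric bundle has a rational section (coordinates)
-/

set_option autoImplicit false

namespace Pool.Agent.CUB.H64

open MvPolynomial

variable {𝕜 : Type} [Field 𝕜] {l m : ℕ} {f : MvPolynomial (Fin (l + 1) ⊕ Fin (m + 1)) 𝕜}

/-- the quadric of the bundle does not contain the linear subspace -/
theorem exists_w [Infinite 𝕜] (hf : Smooth f)
    (hL : ∀ a : Fin (l + 1) → 𝕜, eval (Sum.elim a 0) f = 0) :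
    ∃ w : Fin (l + 2) → RA 𝕜 m, w (Fin.last (l + 1)) = 0 ∧ eval w (qd f) ≠ 0 := by
  set a : Fin (l + 1) → 𝕜 := Pi.single 0 1 with ha
  set v : Fin (l + 1) → RA 𝕜 m := fun i => C (a i) with hv
  refine ⟨Fin.snoc v 0, Fin.snoc_last _ _, ?_⟩
  intro h0
  have hq : ev v 0 (qd f) = 0 := h0
  have hxx : ∀ g : MvPolynomial (Fin (l + 1) ⊕ Fin (m + 1)) 𝕜,
      aeval (xx v (0 : RA 𝕜 m)) g = C (eval (Sum.elim a 0) g) := by
    intro g
    have h1 : (xx v (0 : RA 𝕜 m)) = fun i => C ((Sum.elim a 0 : Fin (l + 1) ⊕ Fin (m + 1) → 𝕜) i) := by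
      funext i
      rcases i with i | i <;> simp [xx, hv]
    rw [h1, aeval_def]
    have h2 := hom_eval₂ g (RingHom.id 𝕜) (C : 𝕜 →+* RA 𝕜 m)
      (Sum.elim a 0 : Fin (l + 1) ⊕ Fin (m + 1) → 𝕜)
    rw [eval₂_id] at h2
    rw [h2]
    rfl
  have e1 : ∀ i, eval (Sum.elim a 0) (pderiv (Sum.inl i) f) = 0 := by
    intro i
    have h1 := congrArg (ev v 0) (d1 hL i)
    rw [ev_aeval, map_mul, ev_X, zero_mul, hxx] at h1
    exact C_injective _ _ (h1.trans (map_zero _).symm)
  have e2 : ∑ j, C (eval (Sum.elim a 0) (pderiv (Sum.inr j) f)) * bb (𝕜 := 𝕜) m j = 0 := by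
    have h := congrArg (ev v 0) (d2 hL)
    have evC : ∀ j, ev v (0 : RA 𝕜 m) (C (bb m j)) = bb m j := by
      intro j
      unfold ev
      rw [eval_C]
    rw [map_sum, map_add, map_mul, ev_X, zero_mul, add_zero, hq] at h
    simpa only [map_mul, ev_aeval, evC, hxx] using h
  have e3 : ∀ j, eval (Sum.elim a 0) (pderiv (Sum.inr j) f) = 0 := by
    rw [Fin.sum_univ_castSucc, bb_last, mul_one] at e2
    have hb : ∀ i : Fin m, bb (𝕜 := 𝕜) m i.castSucc = X i := by
      intro i
      unfold bb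
      exact Fin.snoc_castSucc (α := fun _ => RA 𝕜 m) (x := 1) (p := fun j => X j) (i := i)
    simp only [hb] at e2
    have h4 := congrArg (eval (fun _ : Fin m => (0 : 𝕜))) e2
    simp only [map_add, map_sum, map_mul, eval_C, eval_X, mul_zero, Finset.sum_const_zero,
      zero_add, map_zero] at h4
    intro j
    refine Fin.lastCases h4 (fun k => ?_) j
    have h5 := congrArg (eval (Pi.single k (1 : 𝕜))) e2
    simp only [map_sum, map_mul, eval_C, eval_X, map_zero, h4, add_zero] at h5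
    rw [Finset.sum_eq_single k] at h5
    · simpa using h5
    · intro b _ hb
      simp [hb]
    · simp
  obtain ⟨i, hi⟩ := hf (Sum.elim a 0) (by
    intro h
    have := congrFun h (Sum.inl 0)
    simp [ha] at this) (hL a)
  apply hi
  rcases i with i | i
  · exact e1 i
  · exact e3 i

/-- from a parametrisation of the generic quadric to a parametrisation of the hypersurface -/
theorem lift {F Ω : Type} [Field F] [Field Ω] [Algebra (RA 𝕜 m) F] [IsFractionRing (RA 𝕜 m) F]
    [Algebra 𝕜 F] [IsScalarTower 𝕜 (RA 𝕜 m) F] [Algebra F Ω] [Algebra 𝕜 Ω] [IsScalarTower 𝕜 F Ω]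
    [Infinite 𝕜] (hL : ∀ a : Fin (l + 1) → 𝕜, eval (Sum.elim a 0) f = 0)
    (x' : Fin (l + 2) → Ω) (hx0 : x' (Fin.last (l + 1)) ≠ 0)
    (hxq : aeval x' (map (algebraMap (RA 𝕜 m) F) (qd f)) = 0)
    (hgen : IntermediateField.adjoin F {z | ∃ i j, z = x' i / x' j} = ⊤) :
    ∃ x : Fin (l + 1) ⊕ Fin (m + 1) → Ω,
      x ≠ 0 ∧ aeval x f = 0 ∧ IntermediateField.adjoin 𝕜 {z | ∃ i j, z = x i / x j} = ⊤ := by
  set φ : RA 𝕜 m →+* Ω := (algebraMap F Ω).comp (algebraMap (RA 𝕜 m) F) with hφ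
  set x : Fin (l + 1) ⊕ Fin (m + 1) → Ω :=
    Sum.elim (fun i => x' i.castSucc) (fun j => x' (Fin.last (l + 1)) * φ (bb m j)) with hx
  have hlast : x (Sum.inr (Fin.last m)) = x' (Fin.last (l + 1)) := by
    simp only [hx, Sum.elim_inr, bb_last, map_one, mul_one]
  refine ⟨x, ?_, ?_, ?_⟩
  · intro h
    apply hx0
    rw [← hlast, h]
    rfl
  · have h1 := congrArg (eval₂Hom φ x') (mul_qd hL)
    have h2 : eval₂Hom φ x' (qd f) = 0 := by
      rw [← hxq, coe_eval₂Hom, aeval_def, eval₂_map]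
    rw [map_mul, h2, mul_zero] at h1
    rw [h1, coe_eval₂Hom, aeval_def, aeval_def, ← coe_eval₂Hom φ x', hom_eval₂]
    congr 1
    · ext c
      have h4 : (algebraMap 𝕜 (MvPolynomial (Fin (l + 2)) (RA 𝕜 m))) c =
          C (algebraMap 𝕜 (RA 𝕜 m) c) := rfl
      rw [RingHom.comp_apply, h4, coe_eval₂Hom, eval₂_C, hφ, RingHom.comp_apply,
        ← IsScalarTower.algebraMap_apply 𝕜 (RA 𝕜 m) F, ← IsScalarTower.algebraMap_apply 𝕜 F Ω]
    · funext i
      rcases i with i | i
      · simp [hx, zz]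
      · simp [hx, zz]
  · set S := IntermediateField.adjoin 𝕜 {z | ∃ i j, z = x i / x j} with hS
    have hr : ∀ i j, x i / x j ∈ S := fun i j =>
      IntermediateField.subset_adjoin _ _ ⟨i, j, rfl⟩
    have hb : ∀ j, φ (bb m j) ∈ S := by
      intro j
      have h1 := hr (Sum.inr j) (Sum.inr (Fin.last m))
      rw [hlast] at h1
      have h2 : x (Sum.inr j) / x' (Fin.last (l + 1)) = φ (bb m j) := by
        simp only [hx, Sum.elim_inr]
        field_simp
      rwa [h2] at h1
    have hbX : ∀ i : Fin m, bb (𝕜 := 𝕜) m i.castSucc = X i := by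
      intro i
      unfold bb
      exact Fin.snoc_castSucc (α := fun _ => RA 𝕜 m) (x := 1) (p := fun j => X j) (i := i)
    have hA : ∀ p : RA 𝕜 m, φ p ∈ S := by
      intro p
      induction p using MvPolynomial.induction_on with
      | C a =>
        have h1 : φ (C a) = algebraMap 𝕜 Ω a := by
          have h4 : (C a : RA 𝕜 m) = algebraMap 𝕜 (RA 𝕜 m) a := rfl
          rw [h4, hφ, RingHom.comp_apply,
            ← IsScalarTower.algebraMap_apply 𝕜 (RA 𝕜 m) F, ← IsScalarTower.algebraMap_apply 𝕜 F Ω]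
        rw [h1]
        exact S.algebraMap_mem a
      | add p p' hp hp' =>
        rw [map_add]
        exact S.add_mem hp hp'
      | mul_X p k hp =>
        rw [map_mul]
        refine S.mul_mem hp ?_
        rw [← hbX]
        exact hb _
    have hFS : ∀ z : F, algebraMap F Ω z ∈ S := by
      intro z
      obtain ⟨a, b, hb, rfl⟩ := IsFractionRing.div_surjective (A := RA 𝕜 m) z
      rw [map_div₀]
      exact S.div_mem (hA a) (hA b)
    set S' : IntermediateField F Ω := { S.toSubfield with algebraMap_mem' := hFS } with hS'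
    have hS'mem : ∀ z, z ∈ S' ↔ z ∈ S := fun z => Iff.rfl
    have hx'S : ∀ i, x' i / x' (Fin.last (l + 1)) ∈ S := by
      intro i
      refine Fin.lastCases ?_ (fun i => ?_) i
      · rw [div_self hx0]
        exact S.one_mem
      · have h1 := hr (Sum.inl i) (Sum.inr (Fin.last m))
        rw [hlast] at h1
        exact h1
    have hle : IntermediateField.adjoin F {z | ∃ i j, z = x' i / x' j} ≤ S' := by
      rw [IntermediateField.adjoin_le_iff]
      rintro z ⟨i, j, rfl⟩
      rw [SetLike.mem_coe, hS'mem]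
      have h1 : x' i / x' j = (x' i / x' (Fin.last (l + 1))) / (x' j / x' (Fin.last (l + 1))) := by
        field_simp
      rw [h1]
      exact S.div_mem (hx'S i) (hx'S j)
    rw [hgen] at hle
    rw [eq_top_iff]
    intro z _
    exact (hS'mem z).1 (hle (IntermediateField.mem_top))

theorem core [Infinite 𝕜] (h3 : f.IsHomogeneous 3) (hf : Smooth f)
    (hL : ∀ a : Fin (l + 1) → 𝕜, eval (Sum.elim a 0) f = 0)
    (v : Fin (l + 1) → RA 𝕜 m) (t : RA 𝕜 m) (hne : v ≠ 0 ∨ t ≠ 0) (hq : ev v t (qd f) = 0) :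
    ∃ x : Fin (l + 1) ⊕ Fin (m + 1) →
        FractionRing (MvPolynomial (Fin l) (FractionRing (RA 𝕜 m))),
      x ≠ 0 ∧ aeval x f = 0 ∧ IntermediateField.adjoin 𝕜 {z | ∃ i j, z = x i / x j} = ⊤ := by
  set F := FractionRing (RA 𝕜 m) with hF
  set q' : MvPolynomial (Fin (l + 2)) F := map (algebraMap (RA 𝕜 m) F) (qd f) with hq'
  have hevF : ∀ (w : Fin (l + 2) → RA 𝕜 m) (g : MvPolynomial (Fin (l + 2)) (RA 𝕜 m)),
      eval (fun i => algebraMap (RA 𝕜 m) F (w i)) (map (algebraMap (RA 𝕜 m) F) g) =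
        algebraMap (RA 𝕜 m) F (eval w g) := by
    intro w g
    rw [eval_map]
    have h2 := hom_eval₂ g (RingHom.id (RA 𝕜 m)) (algebraMap (RA 𝕜 m) F) w
    rw [eval₂_id] at h2
    rw [h2]
    rfl
  have hinj := IsFractionRing.injective (RA 𝕜 m) F
  obtain ⟨x', hx0, hxq, hgen, _⟩ := H88.qp2 F l q' ((qd_hom h3 hL).map _)
    (fun i => algebraMap (RA 𝕜 m) F ((Fin.snoc v t : Fin (l + 2) → RA 𝕜 m) i))
    (by rw [hq', hevF]; exact (congrArg _ hq).trans (map_zero _))
    (by
      obtain ⟨i, hi⟩ := smooth_point hf hL v t hne hq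
      refine ⟨i, ?_⟩
      rw [hq', pderiv_map, hevF]
      intro h
      apply hi
      exact hinj (h.trans (map_zero _).symm))
    (Fin.last (l + 1))
    (by
      intro _
      obtain ⟨w, hw0, hw⟩ := exists_w hf hL
      refine ⟨fun i => algebraMap (RA 𝕜 m) F (w i), by simp only [hw0, map_zero], ?_⟩
      rw [hq', hevF]
      intro h
      exact hw (hinj (h.trans (map_zero _).symm)))
  exact lift (F := F) hL x' hx0 hxq hgen

end Pool.Agent.CUB.H64
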