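import Pool.Agent.Helper64_CUB.Gen

/-!
# Linear changes of coordinates
-/

set_option autoImplicit false
set_option linter.unusedSectionVars false

namespace Pool.Agent.CUB.H64

open MvPolynomial

variable {𝕜 : Type} [Field 𝕜] {κ ι : Type} [Fintype κ] [Fintype ι] [DecidableEq κ] [DecidableEq ι]

/-- the matrix over an algebra, applied to a vector -/
def mv {B : Type} [CommRing B] [Algebra 𝕜 B] (M : Matrix κ ι 𝕜) (x : ι → B) : κ → B :=
  (M.map (algebraMap 𝕜 B)).mulVec x

/-- the form `f` in the new coordinates -/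
noncomputable def lin (M : Matrix κ ι 𝕜) (f : MvPolynomial κ 𝕜) : MvPolynomial ι 𝕜 :=
  aeval (mv M (fun j => (X j : MvPolynomial ι 𝕜))) f

section mv

variable {B : Type} [CommRing B] [Algebra 𝕜 B]

theorem mv_apply (M : Matrix κ ι 𝕜) (x : ι → B) (i : κ) :
    mv M x i = ∑ j, algebraMap 𝕜 B (M i j) * x j := rfl

theorem mv_mv {ι' : Type} [Fintype ι'] (N : Matrix ι' κ 𝕜) (M : Matrix κ ι 𝕜) (x : ι → B) :
    mv N (mv M x) = mv (N * M) x := by
  unfold mv
  rw [Matrix.mulVec_mulVec, Matrix.map_mul]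

theorem mv_one (x : ι → B) : mv (1 : Matrix ι ι 𝕜) x = x := by
  unfold mv
  rw [Matrix.map_one _ (map_zero _) (map_one _), Matrix.one_mulVec]

theorem mv_hom {B' : Type} [CommRing B'] [Algebra 𝕜 B'] (φ : B →ₐ[𝕜] B') (M : Matrix κ ι 𝕜)
    (x : ι → B) (i : κ) : φ (mv M x i) = mv M (fun j => φ (x j)) i := by
  rw [mv_apply, mv_apply, map_sum]
  apply Finset.sum_congr rfl
  intro j _
  rw [map_mul, AlgHom.commutes]

theorem mv_add_mul (M : Matrix κ ι 𝕜) (x y : ι → B) (c : B) (i : κ) :
    mv M (fun j => x j + c * y j) i = mv M x i + c * mv M y i := by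
  simp only [mv_apply, Finset.mul_sum, ← Finset.sum_add_distrib]
  apply Finset.sum_congr rfl
  intro j _
  ring

theorem aeval_lin (M : Matrix κ ι 𝕜) (f : MvPolynomial κ 𝕜) (x : ι → B) :
    aeval x (lin M f) = aeval (mv M x) f := by
  unfold lin
  rw [comp_aeval_apply]
  congr 2
  funext i
  rw [mv_hom]
  congr 1
  funext j
  rw [aeval_X]

end mv

theorem eval_lin (M : Matrix κ ι 𝕜) (f : MvPolynomial κ 𝕜) (x : ι → 𝕜) :
    eval x (lin M f) = eval (mv M x) f := aeval_lin M f x

theorem pderiv_lin (M : Matrix κ ι 𝕜) (f : MvPolynomial κ 𝕜) (j : ι) :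
    pderiv j (lin M f) = ∑ i, lin M (pderiv i f) * C (M i j) := by
  unfold lin
  rw [chain (pderiv j) (mv M (fun j => (X j : MvPolynomial ι 𝕜))) f]
  apply Finset.sum_congr rfl
  intro i _
  congr 1
  rw [mv_apply, map_sum, Finset.sum_eq_single j]
  · have : algebraMap 𝕜 (MvPolynomial ι 𝕜) (M i j) = C (M i j) := rfl
    rw [this, pderiv_C_mul, pderiv_X_self, mul_one]
  · intro b _ hb
    have : algebraMap 𝕜 (MvPolynomial ι 𝕜) (M i b) = C (M i b) := rfl
    rw [this, pderiv_C_mul, pderiv_X_of_ne hb, mul_zero]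
  · simp

theorem lin_hom (M : Matrix κ ι 𝕜) {f : MvPolynomial κ 𝕜} {n : ℕ} (hf : f.IsHomogeneous n) :
    (lin M f).IsHomogeneous n := by
  unfold lin
  have h := hf.aeval (mv M (fun j => (X j : MvPolynomial ι 𝕜))) (n := 1) ?_
  · simpa using h
  · intro i
    rw [mv_apply]
    apply IsHomogeneous.sum
    intro j _
    have h1 := (isHomogeneous_C ι (M i j)).mul (isHomogeneous_X 𝕜 j)
    simpa using h1

theorem lin_smooth {M : Matrix κ ι 𝕜} {N : Matrix ι κ 𝕜} (hMN : M * N = 1) (hNM : N * M = 1)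
    {f : MvPolynomial κ 𝕜} (hf : Smooth f) : Smooth (lin M f) := by
  intro x hx h0
  rw [eval_lin] at h0
  have hx' : mv M x ≠ 0 := by
    intro h
    apply hx
    have h1 := mv_mv N M x
    rw [h, hNM, mv_one] at h1
    rw [← h1]
    funext i
    simp [mv_apply]
  obtain ⟨i, hi⟩ := hf _ hx' h0
  by_contra hcon
  push Not at hcon
  apply hi
  have h1 : ∀ j, ∑ k, eval (mv M x) (pderiv k f) * M k j = 0 := by
    intro j
    have h2 := hcon j
    rw [pderiv_lin, map_sum] at h2
    simpa only [map_mul, eval_lin, eval_C] using h2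
  have h3 : ∑ j, (∑ k, eval (mv M x) (pderiv k f) * M k j) * N j i = 0 := by
    apply Finset.sum_eq_zero
    intro j _
    rw [h1, zero_mul]
  simp only [Finset.sum_mul] at h3
  rw [Finset.sum_comm] at h3
  have h4 : ∀ k, ∑ j, eval (mv M x) (pderiv k f) * M k j * N j i =
      if k = i then eval (mv M x) (pderiv k f) else 0 := by
    intro k
    have h5 : (M * N) k i = ∑ j, M k j * N j i := rfl
    rw [hMN] at h5
    simp only [mul_assoc]
    rw [← Finset.mul_sum, ← h5, Matrix.one_apply]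
    split_ifs <;> simp
  simp only [h4, Finset.sum_ite_eq', Finset.mem_univ, if_true] at h3
  exact h3

section DD

variable {A : Type} [CommRing A] [Algebra 𝕜 A]

theorem ln_eq (f : MvPolynomial κ 𝕜) (U W : κ → A) :
    ln (map (algebraMap 𝕜 A) f) U W =
      aeval (fun i => Polynomial.C (U i) + Polynomial.X * Polynomial.C (W i)) f := by
  unfold ln
  rw [eval₂_map, aeval_def]
  rfl

theorem DD_lin (M : Matrix κ ι 𝕜) (f : MvPolynomial κ 𝕜) (U W : ι → A) (c : A) :
    DD (map (algebraMap 𝕜 A) (lin M f)) U c W =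
      DD (map (algebraMap 𝕜 A) f) (mv M U) c (mv M W) := by
  have key : ln (map (algebraMap 𝕜 A) (lin M f)) U W =
      ln (map (algebraMap 𝕜 A) f) (mv M U) (mv M W) := by
    rw [ln_eq, ln_eq, aeval_lin]
    have h2 : mv M (fun i => Polynomial.C (U i) + Polynomial.X * Polynomial.C (W i)) =
        fun i => Polynomial.C (mv M U i) + Polynomial.X * Polynomial.C (mv M W i) := by
      funext i
      rw [mv_add_mul]
      have h1 : ∀ x : ι → A, mv M (fun j => Polynomial.C (x j)) i = Polynomial.C (mv M x i) := by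
        intro x
        simp only [mv_apply, map_sum, map_mul]
        rfl
      rw [h1, h1]
    rw [h2]
  unfold DD
  rw [key]

end DD

end Pool.Agent.CUB.H64
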