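import Mathlib

/-!
# A valuation ring of the algebraic closure dominating a given valuation ring
-/

set_option autoImplicit false
set_option linter.unusedSectionVars false

namespace Pool.Agent.CUB.H64

open IsLocalRing

/-- in a valuation ring a finite family has a member dividing all the others -/
theorem min_dvd {R : Type} [CommRing R] [IsDomain R] [ValuationRing R] {ι : Type} (a : ι → R)
    (s : Finset ι) (hs : s.Nonempty) : ∃ i0 ∈ s, ∀ i ∈ s, a i0 ∣ a i := by
  classical
  induction hs using Finset.Nonempty.cons_induction with
  | singleton i => exact ⟨i, by simp, by simp⟩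
  | cons i s hi hs ih =>
    obtain ⟨i1, h1, h2⟩ := ih
    rcases ValuationRing.dvd_total (a i) (a i1) with h | h
    · refine ⟨i, by simp, ?_⟩
      intro j hj
      rw [Finset.mem_cons] at hj
      rcases hj with rfl | hj
      · exact dvd_rfl
      · exact h.trans (h2 j hj)
    · refine ⟨i1, by simp [h1], ?_⟩
      intro j hj
      rw [Finset.mem_cons] at hj
      rcases hj with rfl | hj
      · exact h
      · exact h2 j hj

/-- the residue field of a valuation ring of an algebraically closed field is algebraically
closed -/
theorem residue_algClosed {E : Type} [Field E] [IsAlgClosed E] (V : ValuationSubring E) :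
    IsAlgClosed (ResidueField V) := by
  apply IsAlgClosed.of_exists_root
  intro p hp hirr
  have h1 : p ∈ Polynomial.lifts (residue V) := by
    rw [Polynomial.mem_lifts]
    exact Polynomial.map_surjective _ residue_surjective p
  obtain ⟨q, hq, hdeg, hmon⟩ := Polynomial.lifts_and_natDegree_eq_and_monic h1 hp
  have hdeg0 : (q.map (algebraMap V E)).degree ≠ 0 := by
    rw [hmon.degree_map]
    intro h0
    rw [Polynomial.degree_eq_natDegree hmon.ne_zero, hdeg] at h0
    have h2 := hirr.natDegree_pos
    have h3 : (p.natDegree : WithBot ℕ) = ((0 : ℕ) : WithBot ℕ) := h0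
    rw [Nat.cast_inj] at h3
    omega
  obtain ⟨x, hx⟩ := IsAlgClosed.exists_root _ hdeg0
  have hint : IsIntegral V x := by
    refine ⟨q, hmon, ?_⟩
    rw [Polynomial.IsRoot.def, Polynomial.eval_map] at hx
    exact hx
  obtain ⟨y, hy⟩ := (IsIntegrallyClosed.isIntegral_iff (K := E)).1 hint
  refine ⟨residue V y, ?_⟩
  rw [← hq, Polynomial.eval_map, Polynomial.eval₂_at_apply]
  have h2 : q.eval y = 0 := by
    apply IsFractionRing.injective V E
    rw [map_zero, ← Polynomial.eval₂_at_apply, hy]
    rw [Polynomial.IsRoot.def, Polynomial.eval_map] at hx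
    exact hx
  rw [h2, map_zero]

/-- a valuation ring `V` of the algebraic closure `E` of the fraction field of a valuation ring `R`
and the reduction of `V` to the algebraic closure of the residue field of `R` -/
theorem val_thm (R : Type) [CommRing R] [IsDomain R] [ValuationRing R] (E : Type) [Field E]
    [IsAlgClosed E] [Algebra R E] (hinj : Function.Injective (algebraMap R E))
    (halg : ∀ x : E, IsAlgebraic R x) :
    ∃ (V : ValuationSubring E) (φ : R →+* V)
      (π : V →+* AlgebraicClosure (ResidueField R)),
      (∀ r, (φ r : E) = algebraMap R E r) ∧ Function.Surjective π ∧ (∀ x, π x ≠ 0 → IsUnit x) ∧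
      π.comp φ = (algebraMap (ResidueField R) (AlgebraicClosure (ResidueField R))).comp
        (residue R) := by
  obtain ⟨V, hV, hloc⟩ := IsLocalRing.exists_factor_valuationRing (algebraMap R E)
  set φ : R →+* V := (algebraMap R E).codRestrict V.toSubring hV with hφ
  have hφ' : ∀ r, (φ r : E) = algebraMap R E r := fun r => rfl
  have hloc' : IsLocalHom φ := hloc
  set μ : ResidueField R →+* ResidueField V := ResidueField.map φ with hμ
  have hμr : ∀ r, μ (residue R r) = residue V (φ r) := fun r => ResidueField.map_residue φ r
  letI : Algebra (ResidueField R) (ResidueField V) := μ.toAlgebra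
  have hμa : algebraMap (ResidueField R) (ResidueField V) = μ := rfl
  have hac := residue_algClosed V
  have halg' : Algebra.IsAlgebraic (ResidueField R) (ResidueField V) := by
    constructor
    intro z
    obtain ⟨x, rfl⟩ := residue_surjective z
    obtain ⟨p, hp, hpx⟩ := halg (x : E)
    have hs : p.support.Nonempty := Polynomial.support_nonempty.2 hp
    obtain ⟨i0, hi0, hdvd⟩ := min_dvd p.coeff p.support hs
    have hdvd' : ∀ i, p.coeff i0 ∣ p.coeff i := by
      intro i
      by_cases hi : i ∈ p.support
      · exact hdvd i hi
      · rw [Polynomial.notMem_support_iff.1 hi]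
        exact dvd_zero _
    obtain ⟨q, hq⟩ := Polynomial.C_dvd_iff_dvd_coeff _ _ |>.2 hdvd'
    have hc0 : p.coeff i0 ≠ 0 := Polynomial.mem_support_iff.1 hi0
    have hq1 : q.coeff i0 = 1 := by
      have h1 := congrArg (fun r => Polynomial.coeff r i0) hq
      simp only [Polynomial.coeff_C_mul] at h1
      have h2 : p.coeff i0 * 1 = p.coeff i0 * q.coeff i0 := by rw [mul_one]; exact h1
      exact (mul_left_cancel₀ hc0 h2).symm
    have hqx : Polynomial.aeval (x : E) q = 0 := by
      rw [hq, map_mul, Polynomial.aeval_C] at hpx
      refine (mul_eq_zero.1 hpx).resolve_left ?_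
      intro h0
      exact hc0 (hinj (h0.trans (map_zero _).symm))
    have hqx' : (q.map φ).eval x = 0 := by
      apply IsFractionRing.injective V E
      rw [map_zero, ← Polynomial.eval₂_at_apply, Polynomial.eval₂_map]
      exact hqx
    refine ⟨q.map (residue R), ?_, ?_⟩
    · intro h0
      have h1 := congrArg (fun r => Polynomial.coeff r i0) h0
      simp only [Polynomial.coeff_map, hq1, map_one, Polynomial.coeff_zero] at h1
      exact one_ne_zero h1
    · rw [Polynomial.aeval_def, Polynomial.eval₂_map, hμa]
      have h2 : μ.comp (residue R) = (residue V).comp φ := RingHom.ext hμr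
      rw [h2, ← Polynomial.eval₂_map, Polynomial.eval₂_at_apply, hqx', map_zero]
  have hcl : IsAlgClosure (ResidueField R) (ResidueField V) := ⟨hac, halg'⟩
  set e := IsAlgClosure.equiv (ResidueField R) (ResidueField V)
    (AlgebraicClosure (ResidueField R)) with he
  refine ⟨V, φ, (e : ResidueField V →+* AlgebraicClosure (ResidueField R)).comp (residue V),
    hφ', ?_, ?_, ?_⟩
  · exact e.surjective.comp residue_surjective
  · intro x hx
    rw [← residue_ne_zero_iff_isUnit]
    intro h0
    apply hx
    rw [RingHom.comp_apply, h0, map_zero]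
  · ext r
    simp only [RingHom.comp_apply, ← hμr]
    rw [← hμa]
    exact e.commutes _

end Pool.Agent.CUB.H64
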